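import Pool.Agent.Helper53K9.UV.Gal

/-!
# Limit points of bounded degree on hypersurfaces that contain a given variety are constant
-/

set_option autoImplicit false

open MvPolynomial FF Pool.Agent.W603.LV Pool.Agent.W603.PV Pool.Agent.W602.RG Pool.Agent.TH145.GH
open Pool.Agent.TH145.GC (Data Gen Full Cf)
open Pool.Agent.Helper53K9.BD

namespace Pool.Agent.Helper53K9.UV

set_option maxHeartbeats 4000000 in
set_option synthInstance.maxHeartbeats 400000 in
theorem lim4 {k0 K : Type} [Field k0] [Field K] [Algebra k0 K] [IsAlgClosed k0]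
    [IsAlgClosed K] [CharZero K] {n m ν : ℕ} {A : Type} [Fintype A] {dg : A → ℕ} (E : Subfield K)
    (hE : ∀ r : k0, algebraMap k0 K r ∈ E)
    {F : A → MvPolynomial (Fin (n + 1)) E} {DE : A → (Fin (n + 1) →₀ ℕ) → E → E}
    (hG : Gen F dg DE) (D : A → (Fin (n + 1) →₀ ℕ) → Derivation ℤ K K)
    (hDE : ∀ a I (x : E), D a I x = (DE a I x : K))
    (hDk : ∀ a I (r : k0), D a I (algebraMap k0 K r) = 0)
    (hd : 2 * m + 2 * ν ≤ ∑ a, (dg a + 1)) {V : Set (MvPolynomial (Fin (n + 1)) k0)}
    (hV : Pool.Agent.TH145.MG.DimLE k0 V m)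
    {eg : A → ℕ} {GE RE : A → MvPolynomial (Fin (n + 1)) E}
    (hGh : ∀ a, (GE a).IsHomogeneous (eg a)) (hRh : ∀ a, (RE a).IsHomogeneous (dg a + eg a))
    (hGD : ∀ a I b v, I.degree = dg a → D a I (((GE b).coeff v : E) : K) = 0)
    (hRD : ∀ a I b v, I.degree = dg a → D a I (((RE b).coeff v : E) : K) = 0)
    (t : Om K) (G : Polynomial (Om K)) (Q : Fin (n + 1) → Polynomial (Om K))
    (hGm : G.Monic) (hGν : G.natDegree ≤ ν) (hGt : G.eval t = 0)
    (hGE : ∀ r, G.coeff r ∈ OE k0 (E : Set K)) (hQE : ∀ j r, (Q j).coeff r ∈ OE k0 (E : Set K))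
    (z : Fin (n + 1) → Om K) (hz : ∀ j, z j = (Q j).eval t) (l0 : Fin (n + 1)) (hl0 : z l0 = 1)
    (hzV : ∀ f ∈ V, eval₂ ((cst K).comp (algebraMap k0 K)) z f = 0)
    (hzF : ∀ a, eval z (map ((cst K).comp E.subtype) (F a)) *
      eval z (map ((cst K).comp E.subtype) (GE a)) +
      eval z (map ((cst K).comp E.subtype) (RE a)) = 0)
    (hzG : ∀ a, eval z (map ((cst K).comp E.subtype) (GE a)) ≠ 0) (j : Fin (n + 1)) :
    z j ∈ acl (cst K '' (E : Set K)) := by
  classical
  by_contra hj1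
  have hczOm : CharZero (Om K) :=
    charZero_of_injective_algebraMap (algebraMap K (Om K)).injective
  have hacOm : IsAlgClosed (Om K) := Pool.Agent.W917.RG.GAC.main K
  -- the coefficients
  obtain ⟨T, hT⟩ : ∃ T : Finset (Om K), T = G.coeffs ∪ Finset.univ.biUnion fun j => (Q j).coeffs :=
    ⟨_, rfl⟩
  have hTE : ∀ w ∈ T, w ∈ OE k0 (E : Set K) := by
    intro w hw
    rw [hT, Finset.mem_union, Finset.mem_biUnion] at hw
    rcases hw with hw | ⟨i, -, hw⟩
    · obtain ⟨r, -, rfl⟩ := Polynomial.mem_coeffs_iff.1 hw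
      exact hGE r
    · obtain ⟨r, -, rfl⟩ := Polynomial.mem_coeffs_iff.1 hw
      exact hQE i r
  have hGT : ∀ r, G.coeff r = 0 ∨ G.coeff r ∈ T := by
    intro r
    by_cases h0 : G.coeff r = 0
    · exact Or.inl h0
    · right
      rw [hT, Finset.mem_union]
      exact Or.inl (Polynomial.coeff_mem_coeffs h0)
  have hQT : ∀ i r, (Q i).coeff r = 0 ∨ (Q i).coeff r ∈ T := by
    intro i r
    by_cases h0 : (Q i).coeff r = 0
    · exact Or.inl h0
    · right
      rw [hT, Finset.mem_union, Finset.mem_biUnion]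
      exact Or.inr ⟨i, Finset.mem_univ _, Polynomial.coeff_mem_coeffs h0⟩
  obtain ⟨S, hS⟩ : ∃ S : Set (Om K),
    S = Set.range (fun x : {x // x ∈ T} => (x : Om K)) ∪ cst K '' (E : Set K) := ⟨_, rfl⟩
  have hTS : ∀ w ∈ T, w ∈ acl S := fun w hw => by
    rw [hS]; exact subset_acl _ (Or.inl ⟨⟨w, hw⟩, rfl⟩)
  have hGS : ∀ r, G.coeff r ∈ acl S := fun r => by
    rcases hGT r with h | h
    · rw [h]; exact zero_mem _
    · exact hTS _ h
  have hQS : ∀ i r, (Q i).coeff r ∈ acl S := fun i r => by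
    rcases hQT i r with h | h
    · rw [h]; exact zero_mem _
    · exact hTS _ h
  have htS : t ∈ acl S := root_mem_acl hGm hGS hGt
  have hzS : z j ∈ acl S := by
    rw [hz]
    exact eval_mem_acl (hQS j) htS
  obtain ⟨κ, Λ, M0, hac, hFF, hEκ, hzΛ, hzκ, hMC, hder, hplace⟩ :=
    rig2 k0 K E hE {x // x ∈ T} (fun x => (x : Om K)) (fun x => hTE x x.2) (z j)
      (by rw [← hS]; exact hzS) hj1
  have hcz : CharZero κ := charZero_of_injective_algebraMap (algebraMap ℚ κ).injective
  have hczΛ : CharZero Λ := charZero_of_injective_algebraMap (algebraMap κ Λ).injective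
  have hGΛ : ∀ r, G.coeff r ∈ Λ := fun r => by
    rcases hGT r with h | h
    · rw [h]; exact zero_mem _
    · exact hzΛ ⟨_, h⟩
  have hQΛ : ∀ i r, (Q i).coeff r ∈ Λ := fun i r => by
    rcases hQT i r with h | h
    · rw [h]; exact zero_mem _
    · exact hzΛ ⟨_, h⟩
  -- the data over `Λ`
  let φ : E →+* Λ :=
    { toFun := fun x => ⟨cst K x, Λ.algebraMap_mem ⟨cst K x, hEκ x x.2⟩⟩
      map_one' := Subtype.ext (map_one (cst K))
      map_mul' := fun a b => Subtype.ext (map_mul (cst K) (a : K) b)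
      map_zero' := Subtype.ext (map_zero (cst K))
      map_add' := fun a b => Subtype.ext (map_add (cst K) (a : K) b) }
  have hφ : ∀ x : E, ((φ x : Λ) : Om K) = cst K x := fun _ => rfl
  have hdd := fun a I => hder (hat (D a I)) (fun w hw => hat_CC (D a I) (hDk a I) hw)
    (fun x hx => ⟨(DE a I ⟨x, hx⟩ : K), (DE a I ⟨x, hx⟩).2, by
      rw [hat_cst, ← hDE a I ⟨x, hx⟩]⟩)
  let D' : A → (Fin (n + 1) →₀ ℕ) → Derivation ℤ Λ Λ := fun a I =>
    resDer Λ (hat (D a I)) (hdd a I).2
  have hD' : ∀ a I (x : Λ), ((D' a I x : Λ) : Om K) = hat (D a I) x := fun a I x => rfl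
  have hSem : ∀ a I, Sem κ (D' a I) := fun a I c =>
    ⟨⟨hat (D a I) c, (hdd a I).1 c c.2⟩, rfl⟩
  have hM0 : ∀ a I, ∀ m ∈ M0, D' a I m = 0 := by
    intro a I m hm
    apply Subtype.ext
    rw [hD']
    exact hat_CC (D a I) (hDk a I) (hMC m hm)
  have hdat : Data κ (fun a => map φ (F a)) dg D' (fun _ => 0) := by
    refine hG.data φ D' (fun a I x => ?_) (fun _ => le_rfl) ?_ ?_
    · apply Subtype.ext
      rw [hD']
      change hat (D a I) (cst K x) = cst K (DE a I x)
      rw [hat_cst, hDE]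
    · intro P f hf a I _
      rw [neg_zero]
      rcases hplace P with ⟨-, θ, hθM, c, hu⟩ | ⟨π, hπM, hπ⟩
      · refine reg_of_unif P hu (hSem a I) le_rfl ?_ hf
        obtain ⟨c', hc'⟩ := hSem a I c
        rw [map_sub, hM0 a I θ hθM, hc', zero_sub]
        exact (Ge.const c').neg
      · refine reg_of_unif P hπ (hSem a I) le_rfl ?_ hf
        rw [hM0 a I π hπM]
        exact Ge.zero
    · simp
  let ψ : k0 →+* Λ := φ.comp ((algebraMap k0 K).codRestrict E hE)
  have hψ : ∀ r, ((ψ r : Λ) : Om K) = cst K (algebraMap k0 K r) := fun _ => rfl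
  have hDψ : ∀ a I r, D' a I (ψ r) = 0 := by
    intro a I r
    apply Subtype.ext
    rw [hD']
    change hat (D a I) (cst K (algebraMap k0 K r)) = 0
    rw [hat_cst, hDk, map_zero]
  -- the polynomials over `Λ`
  obtain ⟨g, hg⟩ : ∃ g : Polynomial Λ, g.map (algebraMap Λ (Om K)) = G := by
    have h1 : G ∈ Polynomial.lifts (algebraMap Λ (Om K)) := by
      rw [Polynomial.lifts_iff_coeff_lifts]
      intro r
      exact ⟨⟨G.coeff r, hGΛ r⟩, rfl⟩
    obtain ⟨q, hq⟩ := h1
    exact ⟨q, hq⟩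
  have hq1 : ∀ i, ∃ q : Polynomial Λ, q.map (algebraMap Λ (Om K)) = Q i := by
    intro i
    have h1 : Q i ∈ Polynomial.lifts (algebraMap Λ (Om K)) := by
      rw [Polynomial.lifts_iff_coeff_lifts]
      intro r
      exact ⟨⟨(Q i).coeff r, hQΛ i r⟩, rfl⟩
    obtain ⟨q, hq⟩ := h1
    exact ⟨q, hq⟩
  choose q hq using hq1
  have hgm : g.Monic := by
    have h1 : (g.map (algebraMap Λ (Om K))).Monic := by rw [hg]; exact hGm
    exact Polynomial.monic_of_injective (algebraMap Λ (Om K)).injective h1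
  have hgν : g.natDegree ≤ ν := by
    rw [← hg, Polynomial.natDegree_map] at hGν
    exact hGν
  -- the splitting field
  obtain ⟨M, hM⟩ : ∃ M : IntermediateField Λ (Om K),
    M = IntermediateField.adjoin Λ (g.rootSet (Om K)) := ⟨_, rfl⟩
  have hspl : g.IsSplittingField Λ M := by
    rw [hM]
    exact IntermediateField.adjoin_rootSet_isSplittingField
      (IsAlgClosed.splits (g.map (algebraMap Λ (Om K))))
  have hfin : FiniteDimensional Λ M := Polynomial.IsSplittingField.finiteDimensional M g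
  have hnor : Normal Λ M := Normal.of_isSplittingField g
  have hgal : IsGalois Λ M := { }
  have htM : t ∈ M := by
    rw [hM]
    apply IntermediateField.subset_adjoin
    rw [Polynomial.mem_rootSet]
    refine ⟨hgm.ne_zero, ?_⟩
    rw [Polynomial.aeval_def, ← Polynomial.eval_map, hg]
    exact hGt
  obtain ⟨t', ht'⟩ : ∃ t' : M, (t' : Om K) = t := ⟨⟨t, htM⟩, rfl⟩
  have htg : Polynomial.aeval t' g = 0 := by
    apply (algebraMap M (Om K)).injective
    rw [map_zero, Polynomial.aeval_def, Polynomial.hom_eval₂]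
    change Polynomial.eval₂ (algebraMap Λ (Om K)) ((t' : M) : Om K) g = 0
    rw [← Polynomial.eval_map, hg, ht']
    exact hGt
  obtain ⟨x, hx⟩ : ∃ x : Fin (n + 1) → M, ∀ i, x i = Polynomial.aeval t' (q i) :=
    ⟨_, fun _ => rfl⟩
  have hxz : ∀ i, ((x i : M) : Om K) = z i := by
    intro i
    rw [hx, hz, ← hq, Polynomial.eval_map, ← ht']
    change algebraMap M (Om K) _ = _
    rw [Polynomial.aeval_def, Polynomial.hom_eval₂]
    rfl
  have hxz' : (fun i => algebraMap M (Om K) (x i)) = z := funext hxz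
  have hxl0 : x l0 = 1 := by
    apply (algebraMap M (Om K)).injective
    rw [map_one]
    exact (hxz l0).trans hl0
  have hfm : ∀ i, x i ∈ IntermediateField.adjoin Λ {t'} := by
    intro i
    rw [hx]
    exact IntermediateField.algebra_adjoin_le_adjoin Λ {t'}
      (Polynomial.aeval_mem_adjoin_singleton Λ t')
  have hev : ∀ f : MvPolynomial (Fin (n + 1)) E,
      algebraMap M (Om K) (eval x (map (algebraMap Λ M) (map φ f))) =
        eval z (map ((cst K).comp E.subtype) f) := by
    intro f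
    rw [eval_map]
    have h2 := hom_eval₂ (map φ f) (algebraMap Λ M) (algebraMap M (Om K)) x
    rw [h2, hxz', eval₂_map, eval_map]
    rfl
  have hkl : ∀ a I (f : MvPolynomial (Fin (n + 1)) E) v, D a I ((f.coeff v : E) : K) = 0 →
      D' a I ((map φ f).coeff v) = 0 := by
    intro a I f v hf
    apply Subtype.ext
    rw [hD', coeff_map]
    change hat (D a I) (cst K ((f.coeff v : E) : K)) = 0
    rw [hat_cst, hf, map_zero]
  have h1 := gal_ht2 hdat (fun a I => hat (D a I)) (fun a I f => (hD' a I f).symm) hSem ψ hDψ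
    hd hV (Gf := fun a => map φ (GE a)) (Rf := fun a => map φ (RE a))
    (fun a => (hGh a).map φ) (fun a => (hRh a).map φ)
    (fun a I b v hI => hkl a I (GE b) v (hGD a I b v hI))
    (fun a I b v hI => hkl a I (RE b) v (hRD a I b v hI))
    g hgm hgν M t' htg x hfm l0 hxl0 (fun f hf => by
      apply (algebraMap M (Om K)).injective
      rw [map_zero]
      have h2 := hom_eval₂ f ((algebraMap Λ M).comp ψ) (algebraMap M (Om K)) x
      rw [h2, hxz']
      exact hzV f hf) (fun a => by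
      apply (algebraMap M (Om K)).injective
      rw [map_zero, map_add, map_mul, hev, hev, hev]
      exact hzF a) (fun a h0 => by
      apply hzG a
      rw [← hev, h0, map_zero])
  have hFFM : IsFF κ M := Pool.Agent.W603.PV.isFF_of_finite (F := Λ)
  simp only [zero_mul, finsum_zero, mul_zero] at h1
  obtain ⟨c, hc⟩ := const_of_pht h1 hxl0 j
  apply hzκ
  rw [← hxz j, hc]
  exact c.2

end Pool.Agent.Helper53K9.UV
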