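import Pool.Agent.Helper53K9.BD.Fin
import Pool.Agent.Helper53K9.UV.Eht
import Pool.Agent.Helper53K9.UV.Lim3

/-!
# Finiteness of the points of bounded degree on hypersurfaces that contain a given variety
-/

set_option autoImplicit false

open MvPolynomial FF Pool.Agent.W603.LV Pool.Agent.W603.PV Pool.Agent.W602.RG Pool.Agent.TH145.GH
open Pool.Agent.TH145.GC (Data Gen Full Cf)
open Pool.Agent.Helper53K9.BD

namespace Pool.Agent.Helper53K9.UV

variable {k0 K ι : Type} [Field k0] [Field K] [Algebra k0 K] [IsAlgClosed K] [CharZero K]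
  {y : ι → K} (E : IntermediateField (IntermediateField.adjoin k0 (Set.range y)) K)

/-- Finiteness of the points with a primitive element of given shape. -/
theorem fin_prim2 {n m ν : ℕ} {A : Type} [Fintype A] {dg : A → ℕ} [IsAlgClosed k0] [Finite ι]
    (hy : IsTranscendenceBasis k0 y)
    [FiniteDimensional (IntermediateField.adjoin k0 (Set.range y)) E]
    [IsGalois (IntermediateField.adjoin k0 (Set.range y)) E]
    {F : A → MvPolynomial (Fin (n + 1)) E.toSubfield}
    {DE : A → (Fin (n + 1) →₀ ℕ) → E.toSubfield → E.toSubfield}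
    (hG : Gen F dg DE)
    (D : A → (Fin (n + 1) →₀ ℕ) → Derivation ℤ K K)
    (hDE : ∀ a I (x : E.toSubfield), D a I x = (DE a I x : K))
    (hDk : ∀ a I (r : k0), D a I (algebraMap k0 K r) = 0)
    (hDy : ∀ a I j, ∃ r : k0, D a I (y j) = algebraMap k0 K r)
    (hd : 2 * m + 2 * ν ≤ ∑ a, (dg a + 1))
    (V : Set (MvPolynomial (Fin (n + 1)) k0)) (hV : Pool.Agent.TH145.MG.DimLE k0 V m)
    {eg : A → ℕ} {GE RE : A → MvPolynomial (Fin (n + 1)) E.toSubfield}
    (hGE : ∀ a, (GE a).IsHomogeneous (eg a)) (hRE : ∀ a, (RE a).IsHomogeneous (dg a + eg a))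
    (hGD : ∀ a I b v, I.degree = dg a → D a I (((GE b).coeff v : E.toSubfield) : K) = 0)
    (hRD : ∀ a I b v, I.degree = dg a → D a I (((RE b).coeff v : E.toSubfield) : K) = 0)
    (l0 : Fin (n + 1)) (g u : ℕ) (hg : g ≤ ν) :
    {x : Fin (n + 1) → K | (∃ (t : K) (G : Polynomial E) (Q : Fin (n + 1) → Polynomial E),
      G.Monic ∧ Irreducible G ∧ G.natDegree = g ∧ Polynomial.aeval t G = 0 ∧
      (∀ j, (Q j).degree < G.natDegree) ∧ (∀ j, x j = Polynomial.aeval t (Q j)) ∧
      t = ∑ j : Fin (n + 1), (u : K) ^ (j : ℕ) * x j) ∧ x l0 = 1 ∧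
      (∀ f ∈ V, eval₂ (algebraMap k0 K) x f = 0) ∧
      (∀ a, eval x (map E.toSubfield.subtype (F a)) * eval x (map E.toSubfield.subtype (GE a)) +
        eval x (map E.toSubfield.subtype (RE a)) = 0) ∧
      ∀ a, eval x (map E.toSubfield.subtype (GE a)) ≠ 0}.Finite := by
  classical
  by_contra hinf
  let f := Set.Infinite.natEmbedding _ hinf
  obtain ⟨x, hx⟩ : ∃ x : ℕ → Fin (n + 1) → K, ∀ n, x n = (f n).1 := ⟨_, fun _ => rfl⟩
  have hxinj : Function.Injective x := by
    intro a b hab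
    rw [hx, hx] at hab
    exact f.injective (Subtype.ext hab)
  have hprop : ∀ N, (∃ (t : K) (G : Polynomial E) (Q : Fin (n + 1) → Polynomial E),
      G.Monic ∧ Irreducible G ∧ G.natDegree = g ∧ Polynomial.aeval t G = 0 ∧
      (∀ j, (Q j).degree < G.natDegree) ∧ (∀ j, x N j = Polynomial.aeval t (Q j)) ∧
      t = ∑ j : Fin (n + 1), (u : K) ^ (j : ℕ) * x N j) ∧ x N l0 = 1 ∧
      (∀ f ∈ V, eval₂ (algebraMap k0 K) (x N) f = 0) ∧
      (∀ a, eval (x N) (map E.toSubfield.subtype (F a)) *
        eval (x N) (map E.toSubfield.subtype (GE a)) +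
        eval (x N) (map E.toSubfield.subtype (RE a)) = 0) ∧
      ∀ a, eval (x N) (map E.toSubfield.subtype (GE a)) ≠ 0 := fun N => by
    rw [hx]
    exact (f N).2
  choose hpr hxl hxV hxF hxG using hprop
  choose t G Q hGm hGi hGd hGt hQd hxQ htx using hpr
  choose B hB using fun i => eht2 (ν := ν) E u hy.1 hG D hDE hDk hDy hd hV hGE hRE hGD hRD l0 i
  have hB' := fun N i => hB i (t N) (G N) (Q N) (hGm N) (hGi N) (by rw [hGd]; exact hg) (hGt N)
    (hQd N) (x N) (hxQ N) (hxl N) (htx N) (hxV N) (hxF N) (hxG N)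
  have hQn : ∀ N j, (Q N j).natDegree ≤ g := by
    intro N j
    have h1 := Polynomial.natDegree_le_of_degree_le (hQd N j).le
    rwa [hGd] at h1
  have hGO : ∀ r, (PL (K := K) G g).coeff r ∈ OE k0 ((E.toSubfield : Subfield K) : Set K) := by
    intro r
    rw [coeff_PL G (fun N => (hGd N).le)]
    exact lim_mem E hy (fun N => (G N).coeff r) B fun N i => (hB' N i).1 r
  have hQO : ∀ j r, (PL (K := K) (fun N => Q N j) g).coeff r ∈
      OE k0 ((E.toSubfield : Subfield K) : Set K) := by
    intro j r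
    rw [coeff_PL (fun N => Q N j) (fun N => hQn N j)]
    exact lim_mem E hy (fun N => (Q N j).coeff r) B fun N i => (hB' N i).2 j r
  have hmon : (PL (K := K) G g).Monic := by
    refine Polynomial.monic_of_natDegree_le_of_coeff_eq_one g (natDegree_PL G g) ?_
    rw [coeff_PL G (fun N => (hGd N).le)]
    have h1 : (fun N => algebraMap E K ((G N).coeff g)) = 1 := by
      funext N
      have h2 : (G N).coeff g = 1 := by
        rw [← hGd N]
        exact hGm N
      rw [h2, map_one]
      rfl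
    rw [h1, map_one]
  have hz : ∀ j, (Om.mk fun N => x N j) =
      (PL (K := K) (fun N => Q N j) g).eval (Pool.Agent.TH145.MF.mkHom K t) := by
    intro j
    rw [eval_PL (fun N => Q N j) (fun N => hQn N j)]
    exact congrArg Om.mk (funext fun N => hxQ N j)
  have hev : ∀ f : MvPolynomial (Fin (n + 1)) E.toSubfield, eval (fun j => Om.mk fun N => x N j)
      (map ((cst K).comp E.toSubfield.subtype) f) =
      Om.mk fun N => eval (x N) (map E.toSubfield.subtype f) := fun f => eval_mk f x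
  have hacl := lim4 (ν := ν) E.toSubfield (fun r => k0_mem E r) hG D hDE hDk hd hV
    hGE hRE hGD hRD
    (Pool.Agent.TH145.MF.mkHom K t) (PL G g) (fun j => PL (fun N => Q N j) g) hmon
    ((natDegree_PL G g).trans hg) (by
      rw [eval_PL G (fun N => (hGd N).le)]
      have h1 : (fun N => Polynomial.aeval (t N) (G N)) = 0 := by
        funext N
        rw [hGt N]
        rfl
      rw [h1, map_zero]) hGO hQO (fun j => Om.mk fun N => x N j) hz l0 (by
      have h1 : (fun N => x N l0) = fun _ => 1 := funext hxl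
      rw [h1]; rfl) (fun f hf => by
      have h1 := Pool.Agent.TH145.MG.eval_mk x (map (algebraMap k0 K) f)
      have h2 : (fun N => eval (x N) (map (algebraMap k0 K) f)) = fun _ => 0 := by
        funext N
        rw [eval_map]
        exact hxV N f hf
      rw [h2] at h1
      have h3 : eval₂ (cst K) (fun j => Om.mk fun N => x N j) (map (algebraMap k0 K) f) = 0 := h1
      rwa [eval₂_map] at h3) (fun a => by
      rw [hev, hev, hev]
      have h1 : (fun N => eval (x N) (map E.toSubfield.subtype (F a)) *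
          eval (x N) (map E.toSubfield.subtype (GE a)) +
          eval (x N) (map E.toSubfield.subtype (RE a))) = fun _ => 0 :=
        funext fun N => hxF N a
      have h2 : (Om.mk fun N => eval (x N) (map E.toSubfield.subtype (F a)) *
          eval (x N) (map E.toSubfield.subtype (GE a)) +
          eval (x N) (map E.toSubfield.subtype (RE a))) = (0 : Om K) := by
        rw [h1]; rfl
      exact h2) (fun a h0 => by
      rw [hev] at h0
      have h1 : (Om.mk fun N => eval (x N) (map E.toSubfield.subtype (GE a))) =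
        Om.mk fun _ => 0 := h0
      rw [Om.mk_eq] at h1
      obtain ⟨N, hN⟩ := h1.exists
      exact hxG N a hN)
  choose a ha using fun j => eventually_const (hacl j)
  exact not_all_const hxinj a ha

/-- Finiteness of the points of degree at most `ν` over `E`. -/
theorem fin_deg2 {n m ν : ℕ} {A : Type} [Fintype A] {dg : A → ℕ} [IsAlgClosed k0] [Finite ι]
    (hy : IsTranscendenceBasis k0 y)
    [FiniteDimensional (IntermediateField.adjoin k0 (Set.range y)) E]
    [IsGalois (IntermediateField.adjoin k0 (Set.range y)) E]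
    {F : A → MvPolynomial (Fin (n + 1)) E.toSubfield}
    {DE : A → (Fin (n + 1) →₀ ℕ) → E.toSubfield → E.toSubfield}
    (hG : Gen F dg DE)
    (D : A → (Fin (n + 1) →₀ ℕ) → Derivation ℤ K K)
    (hDE : ∀ a I (x : E.toSubfield), D a I x = (DE a I x : K))
    (hDk : ∀ a I (r : k0), D a I (algebraMap k0 K r) = 0)
    (hDy : ∀ a I j, ∃ r : k0, D a I (y j) = algebraMap k0 K r)
    (hd : 2 * m + 2 * ν ≤ ∑ a, (dg a + 1))
    (V : Set (MvPolynomial (Fin (n + 1)) k0)) (hV : Pool.Agent.TH145.MG.DimLE k0 V m)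
    {eg : A → ℕ} {GE RE : A → MvPolynomial (Fin (n + 1)) E.toSubfield}
    (hGE : ∀ a, (GE a).IsHomogeneous (eg a)) (hRE : ∀ a, (RE a).IsHomogeneous (dg a + eg a))
    (hGD : ∀ a I b v, I.degree = dg a → D a I (((GE b).coeff v : E.toSubfield) : K) = 0)
    (hRD : ∀ a I b v, I.degree = dg a → D a I (((RE b).coeff v : E.toSubfield) : K) = 0)
    (l0 : Fin (n + 1)) :
    {x : Fin (n + 1) → K | (∃ U : IntermediateField E K, FiniteDimensional E U ∧
      Module.finrank E U ≤ ν ∧ ∀ j, x j ∈ U) ∧ x l0 = 1 ∧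
      (∀ f ∈ V, eval₂ (algebraMap k0 K) x f = 0) ∧
      (∀ a, eval x (map E.toSubfield.subtype (F a)) * eval x (map E.toSubfield.subtype (GE a)) +
        eval x (map E.toSubfield.subtype (RE a)) = 0) ∧
      ∀ a, eval x (map E.toSubfield.subtype (GE a)) ≠ 0}.Finite := by
  classical
  have h1 : (⋃ g ∈ Set.Iic ν, ⋃ u ∈ Set.Iic ((n + 1) * ν * ν),
      {x : Fin (n + 1) → K | (∃ (t : K) (G : Polynomial E) (Q : Fin (n + 1) → Polynomial E),
      G.Monic ∧ Irreducible G ∧ G.natDegree = g ∧ Polynomial.aeval t G = 0 ∧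
      (∀ j, (Q j).degree < G.natDegree) ∧ (∀ j, x j = Polynomial.aeval t (Q j)) ∧
      t = ∑ j : Fin (n + 1), (u : K) ^ (j : ℕ) * x j) ∧ x l0 = 1 ∧
      (∀ f ∈ V, eval₂ (algebraMap k0 K) x f = 0) ∧
      (∀ a, eval x (map E.toSubfield.subtype (F a)) * eval x (map E.toSubfield.subtype (GE a)) +
        eval x (map E.toSubfield.subtype (RE a)) = 0) ∧
      ∀ a, eval x (map E.toSubfield.subtype (GE a)) ≠ 0}).Finite :=
    (Set.finite_Iic ν).biUnion fun g hg => (Set.finite_Iic _).biUnion fun u _ =>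
      fin_prim2 E hy hG D hDE hDk hDy hd V hV hGE hRE hGD hRD l0 g u hg
  refine h1.subset ?_
  rintro x ⟨⟨U, hUf, hU, hxU⟩, hxl, hxV, hxF, hxG⟩
  obtain ⟨u, t, G, Q, hu, hdeg, h2, h3, h4, h5, h6, h7⟩ := exists_prim x U hUf hU hxU
  exact Set.mem_biUnion (x := G.natDegree) hdeg (Set.mem_biUnion (x := u) hu
    ⟨⟨t, G, Q, h2, h3, rfl, h4, h5, h6, h7⟩, hxl, hxV, hxF, hxG⟩)

end Pool.Agent.Helper53K9.UV
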