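import Pool.Agent.Helper53K9.BD.Pts
import Pool.Agent.Helper53K9.UV.Fin
import Pool.Agent.TH145.MG.FinV

/-!
# Points of bounded degree on generic hypersurfaces that contain a given closed set
-/

set_option autoImplicit false

open MvPolynomial Pool.Agent.TH145.GH LinearAlgebra.Projectivization
open Pool.Agent.TH145.GC (Data Gen Full Cf Rt finite_cf exists_all)
open Pool.Agent.Helper53K9.BD

namespace Pool.Agent.Helper53K9.UV

/-- The polynomials whose coefficients are killed by a derivation. -/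
theorem kill_mul {E K σ : Type} [Field E] [Field K] (D : Derivation ℤ K K) (φ : E →+* K)
    {f g : MvPolynomial σ E} (hf : ∀ u, D (φ (f.coeff u)) = 0)
    (hg : ∀ u, D (φ (g.coeff u)) = 0) (u : σ →₀ ℕ) : D (φ ((f * g).coeff u)) = 0 := by
  classical
  rw [coeff_mul, map_sum, map_sum]
  refine Finset.sum_eq_zero fun p _ => ?_
  rw [map_mul, D.leibniz, hf, hg, smul_zero, smul_zero, add_zero]

theorem kill_sum {E K σ ι : Type} [Field E] [Field K] (D : Derivation ℤ K K) (φ : E →+* K)
    (s : Finset ι) {f : ι → MvPolynomial σ E} (hf : ∀ i ∈ s, ∀ u, D (φ ((f i).coeff u)) = 0)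
    (u : σ →₀ ℕ) : D (φ ((∑ i ∈ s, f i).coeff u)) = 0 := by
  rw [coeff_sum, map_sum, map_sum]
  exact Finset.sum_eq_zero fun i hi => hf i hi u

open scoped Classical in
/-- Finiteness of the points of bounded degree at which the forms given by a section do not
vanish. -/
theorem fin_sec {k0 K : Type} [Field k0] [Field K] [Algebra k0 K] [IsAlgClosed K]
    [CharZero K] [IsAlgClosed k0] {n m ν : ℕ} {A C : Type} [Fintype A] [Fintype C]
    {dg eg : A → ℕ} (V : Set (MvPolynomial (Fin (n + 1)) k0))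
    (hV : Pool.Agent.TH145.MG.DimLE k0 V m)
    (G : A → MvPolynomial (Fin (n + 1)) k0) (hG : ∀ a, (G a).IsHomogeneous (eg a))
    (s : A → C) (dd δ : C → ℕ) (hdd : ∀ a, dg a + eg a = dd (s a)) (hδ : ∀ a, δ (s a) ≤ dg a)
    (hd : 2 * m + 2 * ν ≤ ∑ c, (δ c + 1))
    (P : A → MvPolynomial (Fin (n + 1)) K) (hP : ∀ a, (P a).IsHomogeneous (dg a))
    (hind : AlgebraicIndependent k0 fun p : Cf n dg => (P p.1).coeff p.2.1)
    (T : Finset K) (l0 : Fin (n + 1)) (t : C → A) (ht : ∀ c, s (t c) = c) :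
    {x : Fin (n + 1) → K | (∃ U : IntermediateField (IntermediateField.adjoin k0 (T : Set K)) K,
      FiniteDimensional (IntermediateField.adjoin k0 (T : Set K)) U ∧
      Module.finrank (IntermediateField.adjoin k0 (T : Set K)) U ≤ ν ∧ ∀ j, x j ∈ U) ∧ x l0 = 1 ∧
      (∀ f ∈ V, aeval x f = 0) ∧
      (∀ c, (∑ a, if s a = c then eval x (P a) * eval x (map (algebraMap k0 K) (G a)) else 0) =
        0) ∧
      ∀ c, aeval x (G (t c)) ≠ 0}.Finite := by
  obtain ⟨B, hB, K1, y, E, F1, DE, D, hK1, hc, hy, h1, h2, h3, h4, h5, h6, h7, h8⟩ :=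
    exists_all hP hind T
  have : Finite B := hB
  have htinj : ∀ c c', t c = t c' → c = c' := fun c c' h => by rw [← ht c, h, ht]
  let κ : k0 →+* E.toSubfield := (algebraMap k0 K1).codRestrict E.toSubfield fun r =>
    k0_mem E r
  have hκ : ∀ r, E.toSubfield.subtype (κ r) = algebraMap k0 K1 r := fun _ => rfl
  have hgen : Gen (fun c => F1 (t c)) (fun c => dg (t c)) (fun c => DE (t c)) := by
    refine ⟨fun c => h3.hom (t c), fun a b I J hI hJ => ?_⟩
    refine ⟨fun hab hIJ => (h3.dual (t a) (t b) I J hI hJ).1 (by rw [hab]) hIJ, fun hor => ?_⟩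
    refine (h3.dual (t a) (t b) I J hI hJ).2 ?_
    rcases hor with h | h
    · exact Or.inl fun h' => h (htinj _ _ h')
    · exact Or.inr h
  have hsum : 2 * m + 2 * ν ≤ ∑ c, (dg (t c) + 1) := by
    refine hd.trans (Finset.sum_le_sum fun c _ => ?_)
    have := hδ (t c)
    rw [ht] at this
    omega
  obtain ⟨RE, hRE⟩ : ∃ RE : C → MvPolynomial (Fin (n + 1)) E.toSubfield, ∀ c, RE c =
    ∑ a, if s a = c ∧ a ≠ t c then F1 a * map κ (G a) else 0 := ⟨_, fun _ => rfl⟩
  have hREh : ∀ c, (RE c).IsHomogeneous (dg (t c) + eg (t c)) := by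
    intro c
    rw [hRE]
    refine IsHomogeneous.sum _ _ _ fun a _ => ?_
    split_ifs with h
    · have h9 := (h3.hom a).mul ((hG a).map κ)
      have h10 : dg a + eg a = dg (t c) + eg (t c) := by rw [hdd, hdd, ht, h.1]
      rwa [h10] at h9
    · exact isHomogeneous_zero _ _ _
  have hkG : ∀ c I b v, D (t c) I (E.toSubfield.subtype ((map κ (G b)).coeff v)) = 0 := by
    intro c I b v
    rw [coeff_map, hκ, h5]
  have hkF : ∀ c I b v, I.degree = dg (t c) → b ≠ t c →
      D (t c) I (E.toSubfield.subtype ((F1 b).coeff v)) = 0 := by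
    intro c I b v hI hb
    by_cases hv : v.degree = dg b
    · have h9 := (h3.dual (t c) b I v hI hv).2 (Or.inl fun h => hb h.symm)
      have h10 := h4 (t c) I ((F1 b).coeff v)
      rw [h9] at h10
      exact h10
    · have h9 : (F1 b).coeff v = 0 := by
        by_contra h
        exact hv (deg_of_mem (h3.hom b) (mem_support_iff.2 h))
      rw [h9, map_zero, map_zero]
  have hkR : ∀ c I b v, I.degree = dg (t c) →
      D (t c) I (E.toSubfield.subtype ((RE b).coeff v)) = 0 := by
    intro c I b v hI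
    rw [hRE]
    refine kill_sum (D (t c) I) E.toSubfield.subtype _ (fun a _ => ?_) v
    intro u
    split_ifs with h
    · refine kill_mul (D (t c) I) E.toSubfield.subtype (fun u => ?_) (fun u => hkG c I a u) u
      refine hkF c I a u hI fun hac => h.2 ?_
      have h9 : s a = c := by rw [hac, ht]
      rw [← h.1, h9, hac]
    · rw [coeff_zero, map_zero, map_zero]
  have h9 := fin_deg2 (ν := ν) E hy hgen (fun c => D (t c)) (fun c I x => h4 (t c) I x)
    (fun c I r => h5 (t c) I r) (fun c I j => h6 (t c) I j) hsum V hV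
    (eg := fun c => eg (t c)) (GE := fun c => map κ (G (t c))) (RE := RE)
    (fun c => (hG (t c)).map κ) hREh (fun c I b v _ => hkG c I (t b) v)
    (fun c I b v hI => hkR c I b v hI) l0
  refine (h9.image fun x j => (x j : K)).subset ?_
  rintro x ⟨hx, hxl, hxV, hxF, hxG⟩
  obtain ⟨φ, hφ⟩ := exists_hom (algebraMap (IntermediateField.adjoin k0 (T : Set K)) K)
    ((algebraMap K1 K).comp (algebraMap E K1)) (fun r => by
      obtain ⟨e, he, her⟩ := h8 r r.2
      exact ⟨⟨e, he⟩, her⟩)
  obtain ⟨e, hex, hU⟩ := transport_down φ (algebraMap K1 K) hφ x hx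
  have hex' : (fun j => algebraMap K1 K (e j)) = x := funext hex
  obtain ⟨Ψ, hΨ⟩ : ∃ Ψ : MvPolynomial (Fin (n + 1)) E.toSubfield →+* K, ∀ f, Ψ f =
      algebraMap K1 K (eval e (map E.toSubfield.subtype f)) :=
    ⟨(algebraMap K1 K).comp ((eval e).comp (map E.toSubfield.subtype)), fun _ => rfl⟩
  have hev : ∀ f, Ψ f = eval x (map ((algebraMap K1 K).comp E.toSubfield.subtype) f) := by
    intro f
    rw [hΨ, eval_map, eval_map]
    have h10 := hom_eval₂ f E.toSubfield.subtype (algebraMap K1 K) e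
    rw [h10, hex']
  have hΨF : ∀ a, Ψ (F1 a) = eval x (P a) := fun a => by rw [hev, h7]
  have hΨG : ∀ a, Ψ (map κ (G a)) = eval x (map (algebraMap k0 K) (G a)) := by
    intro a
    rw [hev, map_map]
    rfl
  refine ⟨e, ⟨hU, ?_, fun f hf => ?_, fun c => ?_, fun c h0 => ?_⟩, funext hex⟩
  · apply (algebraMap K1 K).injective
    rw [hex, hxl, map_one]
  · apply (algebraMap K1 K).injective
    have h10 := hom_eval₂ f (algebraMap k0 K1) (algebraMap K1 K) e
    rw [h10, map_zero, hex']
    exact hxV f hf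
  · apply (algebraMap K1 K).injective
    rw [map_add, map_mul, ← hΨ, ← hΨ, ← hΨ, hΨF, hΨG, hRE, map_sum, map_zero, ← hxF c,
      ← Finset.sum_erase_add _ _ (Finset.mem_univ (t c)),
      ← Finset.sum_erase_add _ _ (Finset.mem_univ (t c)), if_pos (ht c),
      if_neg (fun h => h.2 rfl), map_zero, add_zero, add_comm]
    congr 1
    refine Finset.sum_congr rfl fun a ha => ?_
    have ha' : a ≠ t c := Finset.ne_of_mem_erase ha
    by_cases hs : s a = c
    · rw [if_pos ⟨hs, ha'⟩, if_pos hs, map_mul, hΨF, hΨG]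
    · rw [if_neg (fun h => hs h.1), if_neg hs, map_zero]
  · apply hxG c
    have h10 : Ψ (map κ (G (t c))) = 0 := by rw [hΨ, h0, map_zero]
    rw [hΨG, eval_map] at h10
    exact h10

open scoped Classical in
/-- The points of bounded degree on generic hypersurfaces that contain a given closed set: the
equations are `∑ P a * G a = 0` (the sum over the `a` with `s a = c`), and for every `c` some `G a`
with `s a = c` does not vanish at the point. -/
theorem pts_nu {k K : Type} [Field k] [Field K] [IsAlgClosed K] [CharZero K] [Algebra k K]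
    {n m ν : ℕ} (V : Set (MvPolynomial (Fin (n + 1)) (algebraicClosure k K)))
    (hVh : ∀ f ∈ V, ∃ e, f.IsHomogeneous e)
    (hV : Pool.Agent.TH145.MG.DimLE (algebraicClosure k K) V m)
    {A C : Type} [Fintype A] [Fintype C] {dg eg : A → ℕ}
    (G : A → MvPolynomial (Fin (n + 1)) (algebraicClosure k K))
    (hG : ∀ a, (G a).IsHomogeneous (eg a))
    (s : A → C) (dd δ : C → ℕ) (hdd : ∀ a, dg a + eg a = dd (s a)) (hδ : ∀ a, δ (s a) ≤ dg a)
    (hd : 2 * m + 2 * ν ≤ ∑ c, (δ c + 1))
    (P : A → MvPolynomial (Fin (n + 1)) K) (hP : ∀ a, (P a).IsHomogeneous (dg a))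
    (hind : AlgebraicIndependent k fun p : Cf n dg => (P p.1).coeff p.2.1) (T : Finset K) :
    {p : ℙ K (Fin (n + 1) → K) | ∃ (x : Fin (n + 1) → K) (hx : x ≠ 0),
      p = Projectivization.mk K x hx ∧ (∀ f ∈ V, aeval x f = 0) ∧
      (∀ c, (∑ a, if s a = c then
        eval x (P a) * eval x (map (algebraMap (algebraicClosure k K) K) (G a)) else 0) = 0) ∧
      (∀ c, ∃ a, s a = c ∧ aeval x (G a) ≠ 0) ∧
      ∃ U : IntermediateField (IntermediateField.adjoin (algebraicClosure k K) (T : Set K)) K,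
        FiniteDimensional (IntermediateField.adjoin (algebraicClosure k K) (T : Set K)) U ∧
        Module.finrank (IntermediateField.adjoin (algebraicClosure k K) (T : Set K)) U ≤ ν ∧
        ∀ i, x i ∈ U}.Finite := by
  have hac : IsAlgClosed (algebraicClosure k K) := (algebraicClosure.isAlgClosure k K).isAlgClosed
  obtain ⟨S, hS⟩ : ∃ S : (C → A) → Fin (n + 1) → Set (Fin (n + 1) → K), ∀ t l, S t l =
      if ∀ c, s (t c) = c then {x : Fin (n + 1) → K | (∃ U : IntermediateField
        (IntermediateField.adjoin (algebraicClosure k K) (T : Set K)) K,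
        FiniteDimensional (IntermediateField.adjoin (algebraicClosure k K) (T : Set K)) U ∧
        Module.finrank (IntermediateField.adjoin (algebraicClosure k K) (T : Set K)) U ≤ ν ∧
        ∀ j, x j ∈ U) ∧ x l = 1 ∧
        (∀ f ∈ V, aeval x f = 0) ∧
        (∀ c, (∑ a, if s a = c then
          eval x (P a) * eval x (map (algebraMap (algebraicClosure k K) K) (G a)) else 0) = 0) ∧
        ∀ c, aeval x (G (t c)) ≠ 0} else ∅ := ⟨_, fun _ _ => rfl⟩
  have h1 : ∀ t l, (S t l).Finite := fun t l => by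
    rw [hS]
    split_ifs with ht
    · exact fin_sec V hV G hG s dd δ hdd hδ hd P hP hind.algebraicClosure T l t ht
    · exact Set.finite_empty
  have hne : (Pi.single 0 1 : Fin (n + 1) → K) ≠ 0 := by
    intro h
    have := congrFun h 0
    rw [Pi.single_eq_same] at this
    exact one_ne_zero this
  obtain ⟨g, hg⟩ : ∃ g : (Fin (n + 1) → K) → ℙ K (Fin (n + 1) → K), ∀ x, g x =
    if hx : x ≠ 0 then Projectivization.mk K x hx else Projectivization.mk K _ hne :=
    ⟨_, fun _ => rfl⟩
  refine (Set.finite_iUnion fun t => Set.finite_iUnion fun l => (h1 t l).image g).subset ?_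
  rintro p ⟨x, hx, rfl, hxV, hxF, hxG, U, hUf, hU, hxU⟩
  obtain ⟨l, hl⟩ := Function.ne_iff.1 hx
  have hl' : x l ≠ 0 := hl
  choose t ht htG using hxG
  obtain ⟨x', hx'⟩ : ∃ x' : Fin (n + 1) → K, x' = (x l)⁻¹ • x := ⟨_, rfl⟩
  have hxl : x' l = 1 := by rw [hx', Pi.smul_apply, smul_eq_mul, inv_mul_cancel₀ hl']
  have hx0 : x' ≠ 0 := by
    rintro h
    rw [h] at hxl
    exact zero_ne_one hxl
  rw [Set.mem_iUnion]
  refine ⟨t, ?_⟩
  rw [Set.mem_iUnion]
  refine ⟨l, x', ?_, ?_⟩
  · rw [hS, if_pos ht]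
    refine ⟨⟨U, hUf, hU, fun j => ?_⟩, hxl, fun f hf => ?_, fun c => ?_, fun c => ?_⟩
    · rw [hx', Pi.smul_apply, smul_eq_mul]
      exact mul_mem (inv_mem (hxU l)) (hxU j)
    · obtain ⟨e, he⟩ := hVh f hf
      rw [hx', Pool.Agent.TH145.MG.aeval_smul he, hxV f hf, mul_zero]
    · have h2 : ∀ a, (if s a = c then eval x' (P a) *
          eval x' (map (algebraMap (algebraicClosure k K) K) (G a)) else 0) =
          (x l)⁻¹ ^ dd c * (if s a = c then eval x (P a) *
            eval x (map (algebraMap (algebraicClosure k K) K) (G a)) else 0) := by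
        intro a
        split_ifs with hs
        · rw [hx', Pool.Agent.TH145.GH.eval_smul_hom (hP a),
            Pool.Agent.TH145.GH.eval_smul_hom ((hG a).map _), ← hs, ← hdd, pow_add]
          ring
        · rw [mul_zero]
      rw [Finset.sum_congr rfl fun a _ => h2 a, ← Finset.mul_sum, hxF c, mul_zero]
    · rw [hx', Pool.Agent.TH145.MG.aeval_smul (hG _)]
      exact mul_ne_zero (pow_ne_zero _ (inv_ne_zero hl')) (htG c)
  · rw [hg, dif_pos hx0, Projectivization.mk_eq_mk_iff']
    exact ⟨(x l)⁻¹, hx'.symm⟩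

end Pool.Agent.Helper53K9.UV
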