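import Pool.Agent.Helper53K9.BD.Crv
import Pool.Agent.Helper21K9.UV.Curve

/-!
# Families of points of bounded degree on generic hypersurfaces that contain a given closed set
-/

set_option autoImplicit false

open MvPolynomial FF Pool.Agent.W603.LV Pool.Agent.W603.PV Pool.Agent.TH145.GH
open Pool.Agent.TH145.GC (Ev dF_sub dF_self ord_prod exists_minor ge_det Cf finite_cf Tan)
open Pool.Agent.TH145.GD (Ti tv St sM sM_mem mon_step sM_zero sM_top single_mem deg_St finite_St)
open Pool.Agent.TH145.GE Pool.Agent.W602.GT Pool.Agent.TH145.MG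
open Pool.Agent.Helper53K9.BD Pool.Agent.Helper53K9.BD.CurvL Pool.Agent.Helper21K9.UV

namespace Pool.Agent.Helper53K9.UV

section loc

variable {k K : Type} [Field k] [Field K] [Algebra k K]
  {n : ℕ} {A X : Type} {c0 : Fin (n + 1)} {dg : A → ℕ}
  {D : A → (Fin (n + 1) →₀ ℕ) → Derivation ℤ K K} {E : X → Derivation ℤ K K}

open scoped Classical in
theorem local_gen2 [Fintype A] (P : Place k K) {x : Fin (n + 1) → K} (he0 : x c0 ≠ 0)
    {b : Finset (Ix X n A ⊕ A)} (hb : Sum.inl none ∈ b) (σ : b → Fin (n + 1))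
    (hspan : Submodule.span K (Set.range (wv c0 dg D E x)) ≤
        Submodule.span K (wv c0 dg D E x '' {o | Sum.inl o ∈ b}))
    (hdet : (mx c0 dg D E x (fun a => Finsupp.single c0 (dg a)) b σ).det ≠ 0) (ω : ℤ)
    (hord : ∀ (lam : K) (x' : Fin (n + 1) → K) (e1 : Fin (n + 1)), lam ≠ 0 → x = lam • x' →
      (∀ l, Ge P 0 (x' l)) → x' e1 = 1 →
      (mx c0 dg D E x' (fun a => Finsupp.single e1 (dg a)) b σ).det ≠ 0 →
      ω ≤ P.ord (mx c0 dg D E x' (fun a => Finsupp.single e1 (dg a)) b σ).det) :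
    ((∑ i ∈ b, rd i : ℕ) - (∑ a ∈ rowF b, dg a : ℕ)) * pord P x + ω ≤
      P.ord ((mx c0 dg D E x (fun a => Finsupp.single c0 (dg a)) b σ).det /
        ∏ a ∈ rowF b, x c0 ^ dg a) := by
  rw [← sum_rowF (fun a => inferInstance) dg, ← prod_rowF (fun a => inferInstance)
    (fun a => x c0 ^ dg a)]
  have hx0 : x ≠ 0 := by
    rintro rfl
    exact he0 rfl
  obtain ⟨lam, x', hlam, hlamP, hxx, hx', e1, he1⟩ := exists_scaled P hx0
  have hdeg : ∀ a, Finsupp.single e1 (dg a) ∈ St c0 (dg a) := fun a => single_mem _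
  obtain ⟨dx, hdx⟩ : ∃ dx, dx = (mx c0 dg D E x (fun a => Finsupp.single c0 (dg a)) b σ).det :=
    ⟨_, rfl⟩
  obtain ⟨dx', hdx'⟩ : ∃ dx', dx' = (mx c0 dg D E x' (fun a => Finsupp.single e1 (dg a)) b σ).det :=
    ⟨_, rfl⟩
  have h1 := det_change he0 σ hspan (fun a => Finsupp.single e1 (dg a)) hdeg
  have h2 := det_lam (c0 := c0) (dg := dg) (D := D) (E := E) (x := x') lam hb σ
    (fun a => Finsupp.single e1 (dg a))
  rw [← hxx, ← hdx'] at h2
  rw [← hdx, h2] at h1
  have hmon : ∀ a, mon x (Finsupp.single e1 (dg a)) = lam ^ dg a := fun a => by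
    rw [mon_single, hxx, Pi.smul_apply, he1, smul_eq_mul, mul_one]
  simp only [hmon] at h1
  rw [← hdx] at hdet ⊢
  obtain ⟨Z, hZ⟩ : ∃ Z, Z = ∏ a, if Sum.inr a ∈ b then x c0 ^ dg a else 1 := ⟨_, rfl⟩
  have hZ0 : Z ≠ 0 := by
    rw [hZ]
    refine Finset.prod_ne_zero_iff.2 fun a _ => ?_
    split_ifs with ha
    · exact pow_ne_zero _ he0
    · exact one_ne_zero
  rw [← hZ]
  have h3 : (∏ a, if Sum.inr a ∈ b then lam ^ dg a / x c0 ^ dg a else 1) * Z =
      lam ^ (∑ a, if Sum.inr a ∈ b then dg a else 0) := by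
    rw [hZ, ← Finset.prod_pow_eq_pow_sum, ← Finset.prod_mul_distrib]
    refine Finset.prod_congr rfl fun a _ => ?_
    by_cases ha : Sum.inr a ∈ b
    · simp only [ha, if_true]
      rw [div_mul_cancel₀ _ (pow_ne_zero _ he0)]
    · simp only [ha, if_false, mul_one, pow_zero]
  have h4 : lam ^ (∑ i ∈ b, rd i) * dx' = dx / Z * lam ^ (∑ a, if Sum.inr a ∈ b then dg a else 0) := by
    rw [h1, ← h3]
    field_simp
  have hlp : ∀ m : ℕ, lam ^ m ≠ 0 := fun m => pow_ne_zero _ hlam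
  have hq0 : dx / Z ≠ 0 := div_ne_zero hdet hZ0
  have hdx'0 : dx' ≠ 0 := by
    intro h0
    rw [h0, mul_zero] at h4
    exact mul_ne_zero hq0 (hlp _) h4.symm
  have h5 := congrArg P.ord h4
  rw [P.ord_mul (hlp _) hdx'0, P.ord_mul hq0 (hlp _), P.ord_pow, P.ord_pow, hlamP] at h5
  have h7 := hord lam x' e1 hlam hxx hx' he1 (by rw [← hdx']; exact hdx'0)
  rw [← hdx'] at h7
  rw [sub_mul]
  linarith


variable [IsAlgClosed k] [CharZero k] [IsFF k K] {δ : Derivation k K K}

open scoped Classical in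
/-- The order of the determinant at a scaled point of a curve. -/
theorem ord_det2 (hS : ∀ a I, Sem k (D a I)) (hδ : δ ≠ 0) (P : Place k K)
    {x : Fin (n + 1) → K} (hx : ∀ l, Ge P 0 (x l)) (e1 : Fin (n + 1))
    {b : Finset (Ix Unit n A ⊕ A)} (hb : ∀ i ∈ Vert Unit n A, i ∈ b) (σ : b → Fin (n + 1))
    (hdet : (mx c0 dg D (vert δ) x (fun a => Finsupp.single e1 (dg a)) b σ).det ≠ 0)
    {w : ℤ} (hw : ∀ l, Ge P (-w) (δ (x l))) :
    -w ≤ P.ord (mx c0 dg D (vert δ) x (fun a => Finsupp.single e1 (dg a)) b σ).det := by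
  have hπ := ord_unif P
  obtain ⟨π, hπd⟩ : ∃ π, π = unif P := ⟨_, rfl⟩
  rw [← hπd] at hπ
  have hπ0 : π ≠ 0 := by
    rintro rfl
    rw [P.ord_zero] at hπ
    exact absurd hπ (by norm_num)
  have hδπ : δ π ≠ 0 := der_pi_ne_zero hδ P hπ
  obtain ⟨DP, hDP⟩ : ∃ DP : A → (Fin (n + 1) →₀ ℕ) → Derivation ℤ K K, ∀ a I,
    DP a I = D a I - (D a I π / δ π) • δ.restrictScalars ℤ := ⟨_, fun _ _ => rfl⟩
  have hDPf : ∀ a I f, DP a I f = D a I f - D a I π / δ π * δ f := fun a I f => by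
    rw [hDP, Derivation.sub_apply, Derivation.smul_apply, smul_eq_mul]
    rfl
  have hPres : Pres P c0 dg DP := by
    intro f hf a I _
    refine ge_of_kill P (fun c => ?_) hπ ?_ hf
    · obtain ⟨c', hc'⟩ := hS a I c
      refine ⟨c', ?_⟩
      rw [hDPf, hc', Derivation.map_algebraMap, mul_zero, sub_zero]
    · rw [hDPf, div_mul_cancel₀ _ hδπ, sub_self]
  have hDP' : ∀ a I f, DP a I f = D a I f + ∑ ξ : Unit, (-(D a I π / δ π)) * vert δ ξ f :=
    fun a I f => by
      rw [hDPf, Finset.univ_unique, Finset.sum_singleton]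
      change _ = _ + -(D a I π / δ π) * δ f
      ring
  have hmem : Sum.inl (some (Sum.inl ())) ∈ b := hb _ (Or.inr ⟨(), rfl⟩)
  have h1 := det_add_vert (c0 := c0) (dg := dg) (D := D) (E := vert δ)
    (κ := fun a I _ => -(D a I π / δ π)) hDP' (x := x) hb σ (fun a => Finsupp.single e1 (dg a))
  obtain ⟨u, hud⟩ : ∃ u : K, u = π ^ (-w) := ⟨_, rfl⟩
  have hu : u ≠ 0 := by rw [hud]; exact zpow_ne_zero _ hπ0
  have huo : P.ord u = -w := by rw [hud, P.ord_zpow, hπ, mul_one]
  have hu1 : ∀ l, Ge P 0 (u⁻¹ * δ (x l)) := by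
    intro l
    have h2 : Ge P w u⁻¹ := by
      right
      rw [P.ord_inv, huo, neg_neg]
    have h3 := h2.mul (hw l)
    rwa [add_neg_cancel] at h3
  obtain ⟨E', hE'⟩ : ∃ E' : Unit → Derivation ℤ K K, ∀ ξ,
    E' ξ = u⁻¹ • δ.restrictScalars ℤ := ⟨_, fun _ => rfl⟩
  have hE'f : ∀ ξ f, E' ξ f = u⁻¹ * δ f := fun ξ f => by
    rw [hE', Derivation.smul_apply, smul_eq_mul]
    rfl
  have h2 := det_smul_vert (c0 := c0) (dg := dg) (D := DP) (E := vert δ) (E' := E') (u := u)
    (fun f => by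
      rw [hE'f, ← mul_assoc, mul_inv_cancel₀ hu, one_mul]
      rfl) (x := x) hmem σ (fun a => Finsupp.single e1 (dg a))
  rw [← h1, h2] at hdet ⊢
  have hdet' : (mx c0 dg DP E' x (fun a => Finsupp.single e1 (dg a)) b σ).det ≠ 0 := by
    intro h0
    rw [h0, mul_zero] at hdet
    exact hdet rfl
  rw [P.ord_mul hu hdet', huo]
  have h3 := (ge_det P (mx c0 dg DP E' x (fun a => Finsupp.single e1 (dg a)) b σ) (c := 0)
    (fun i j => by
      rw [neg_zero]
      exact ge_vv hPres hx (fun ξ l => by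
        rw [hE'f]
        exact hu1 l) (fun a => single_mem _) _ _)).resolve_left hdet'
  rw [mul_zero, neg_zero] at h3
  linarith


end loc

section ineq

variable {k K : Type} [Field k] [Field K] [Algebra k K] [IsAlgClosed k] [CharZero k] [IsFF k K]
  {n : ℕ} {A : Type} {c0 : Fin (n + 1)} {dg eg : A → ℕ}
  {D : A → (Fin (n + 1) →₀ ℕ) → Derivation ℤ K K} {P G : A → MvPolynomial (Fin (n + 1)) K}
  {δ : Derivation k K K}

theorem curve_ineq2 [Fintype A] {C : Type} [Fintype C] (s : A → C) (dd dl : C → ℕ)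
    (hP : ∀ a, (P a).IsHomogeneous (dg a)) (hG : ∀ a, (G a).IsHomogeneous (eg a))
    (hdd : ∀ a, dg a + eg a = dd (s a)) (hdl : ∀ a, dl (s a) ≤ dg a)
    (hD : open scoped Classical in ∀ (x : Fin (n + 1) → K) (a b : A) (I : Fin (n + 1) →₀ ℕ),
      I ∈ St c0 (dg a) →
      dF (P b) x (Ev D x a I) = D a I (eval x (P b)) - if a = b then mon x I else 0)
    (hDG : ∀ a I b u, D a I ((G b).coeff u) = 0)
    (hS : ∀ a I, Sem k (D a I)) (hδ : δ ≠ 0) (hδP : ∀ a u, δ ((P a).coeff u) = 0)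
    (hδG : ∀ a u, δ ((G a).coeff u) = 0)
    {m : ℕ} {x : Fin (n + 1) → K} (hx1 : x c0 = 1) {l1 : Fin (n + 1)}
    (hl1 : δ (x l1) ≠ 0) (hrk : Module.finrank K (Full c0 dg D (vert δ) x) ≤ m + 1)
    (hx : ∀ c, fv s P G c x = 0) (hn : ∀ c, ∃ a, s a = c ∧ eval x (G a) ≠ 0)
    {ω : Place k K → ℤ} (hω : {P | ω P ≠ 0}.Finite) (hw : ∀ P, Nrm P δ x (ω P)) :
    (((∑ c, (dl c + 1) : ℕ) : ℤ) - 2 * m) * pht k x ≤ ∑ᶠ P, ω P := by
  classical
  have hx0 : x c0 ≠ 0 := by rw [hx1]; exact one_ne_zero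
  have hx00 : x ≠ 0 := by
    rintro rfl
    exact hx0 rfl
  have hind : LinearIndepOn K (vv c0 dg D (vert δ) x fun a => Finsupp.single c0 (dg a))
      (Vert Unit n A) := by
    have h1 : Vert Unit n A = {Sum.inl none, Sum.inl (some (Sum.inl ()))} := by
      ext i
      constructor
      · rintro (rfl | ⟨⟨⟩, rfl⟩)
        · exact Or.inl rfl
        · exact Or.inr rfl
      · rintro (rfl | rfl)
        · exact Or.inl rfl
        · exact Or.inr ⟨(), rfl⟩
    rw [h1, LinearIndepOn.pair_iff _ (by simp)]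
    intro r t hrs
    have h2 := congrFun hrs c0
    have h3 := congrFun hrs l1
    simp only [vv, wv, ev, Pi.add_apply, Pi.smul_apply, smul_eq_mul, Pi.zero_apply] at h2 h3
    have h4 : vert δ () (x c0) = 0 := by
      rw [hx1]
      exact δ.map_one_eq_zero
    rw [h4, hx1, mul_one, mul_zero, add_zero] at h2
    rw [h2, zero_mul, zero_add] at h3
    exact ⟨h2, (mul_eq_zero.1 h3).resolve_right hl1⟩
  obtain ⟨b, hbV, hbC, hbi, hspan, hcard⟩ := exists_rowsX (E := vert δ) s dd hP hG hdd hD hDG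
    (fun _ b u => hδP b u) (fun _ b u => hδG b u) hx0 hx hn hind
  obtain ⟨σ, hσ⟩ := exists_minor _ hbi
  have hdet : (mx c0 dg D (vert δ) x (fun a => Finsupp.single c0 (dg a)) b σ).det ≠ 0 := by
    unfold mx
    convert hσ
  have hc1 := count_rows hbV
  have hc2 := count_forms (dg := dg) s dl hdl hbC
  have hpht : 0 ≤ pht k x :=
    (hgt_nonneg _).trans (Pool.Agent.W603.CX.hgt_le_pht (k := k) x hx0 hx0)
  obtain ⟨α, hα⟩ : ∃ α : ℤ, α = (∑ a ∈ rowF b, dg a : ℕ) -
    (∑ i ∈ b, rd i : ℕ) := ⟨_, rfl⟩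
  have h1 := sum_local' (k := k) hx00
    (Θ := (mx c0 dg D (vert δ) x (fun a => Finsupp.single c0 (dg a)) b σ).det /
        ∏ a ∈ rowF b, x c0 ^ dg a) (a := α)
    (C := ω) hω (fun P => ?_)
  · refine le_trans (mul_le_mul_of_nonneg_right ?_ hpht) h1
    have h4 : (b.card : ℤ) ≤ m + 1 := by
      rw [hcard] at hrk
      exact_mod_cast hrk
    rw [Fintype.card_unit] at hc1
    have h5 : ((∑ c, (dl c + 1) : ℕ) : ℤ) ≤ (∑ a ∈ rowF b, dg a : ℕ) +
      ((rowF b).card : ℕ) := by exact_mod_cast hc2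
    have h6 : ((∑ i ∈ b, rd i : ℕ) : ℤ) +
      ((rowF b).card : ℕ) + 1 + 1 ≤ 2 * b.card := by
      exact_mod_cast hc1
    rw [hα]
    linarith
  · have h2 := local_gen2 P hx0 (hbV _ (Or.inl rfl)) σ hspan hdet (-ω P)
      (fun lam x' e1 hlam hxx hx' he1 hd => ord_det2 hS hδ P hx' e1 hbV σ hd
        (hw P lam x' hlam hxx hx' ⟨e1, he1⟩))
    refine le_trans ?_ h2
    rw [hα]
    have h4 : -(((∑ a ∈ rowF b, dg a : ℕ) : ℤ) - (∑ i ∈ b, rd i : ℕ)) *
        pord P x = ((∑ i ∈ b, rd i : ℕ) - (∑ a ∈ rowF b, dg a : ℕ)) *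
        pord P x := by ring
    rw [h4]
    linarith

end ineq


theorem curv2 {k0 K L : Type} [Field k0] [Field K] [Field L] [Algebra k0 K] [Algebra K L]
    [IsAlgClosed K] [CharZero K] [IsFF K L] {n m : ℕ} {A C : Type} [Fintype A] [Fintype C]
    {dg eg : A → ℕ} (V : Set (MvPolynomial (Fin (n + 1)) k0))
    (hVh : ∀ f ∈ V, ∃ e, f.IsHomogeneous e) (hV : DimLE k0 V m)
    (G : A → MvPolynomial (Fin (n + 1)) k0) (hG : ∀ a, (G a).IsHomogeneous (eg a))
    (s : A → C) (dd dl : C → ℕ) (hdd : ∀ a, dg a + eg a = dd (s a)) (hdl : ∀ a, dl (s a) ≤ dg a)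
    (P : A → MvPolynomial (Fin (n + 1)) K) (hP : ∀ a, (P a).IsHomogeneous (dg a))
    (hgen' : AlgebraicIndependent k0 fun p : Cf n dg => (P p.1).coeff p.2.1)
    (x : Fin (n + 1) → L) (hx : ∃ i j, x j ≠ 0 ∧ x i / x j ∉ Set.range (algebraMap K L))
    (hxV : ∀ f ∈ V, aeval x (map (algebraMap k0 K) f) = 0)
    (hxC : ∀ c, fv s (fun a => map (algebraMap K L) (P a)) (fun a => map (algebraMap K L)
      (map (algebraMap k0 K) (G a))) c x = 0)
    (hxn : ∀ c, ∃ a, s a = c ∧ aeval x (map (algebraMap k0 K) (G a)) ≠ 0)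
    (δ : Derivation K L L) (hδ : δ ≠ 0) (ω : Place K L → ℤ) (hω : {P | ω P ≠ 0}.Finite)
    (hw : ∀ (P : Place K L) (lam : L) (x' : Fin (n + 1) → L), lam ≠ 0 → x = lam • x' →
      (∀ l, Ge P 0 (x' l)) → (∃ e1, x' e1 = 1) → ∀ l, Ge P (-ω P) (δ (x' l))) :
    (((∑ c, (dl c + 1) : ℕ) : ℤ) - 2 * m) * pht K x ≤ ∑ᶠ P, ω P := by
  classical
  let _ : Algebra k0 L := ((algebraMap K L).comp (algebraMap k0 K)).toAlgebra
  have hst : IsScalarTower k0 K L := IsScalarTower.of_algebraMap_eq fun _ => rfl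
  have hL : CharZero L := charZero_of_injective_algebraMap (algebraMap K L).injective
  obtain ⟨i1, c0, hc0, hi1⟩ := hx
  obtain ⟨D, hD, hDS, hDk⟩ := exists_dualX (L := L) hP hgen'
  obtain ⟨x', hx'⟩ : ∃ x' : Fin (n + 1) → L, x' = fun j => (x c0)⁻¹ * x j := ⟨_, rfl⟩
  have hcx : (x c0)⁻¹ ≠ 0 := inv_ne_zero hc0
  have hx1 : x' c0 = 1 := by
    rw [hx']
    exact inv_mul_cancel₀ hc0
  have hl1 : ∃ l1, δ (x' l1) ≠ 0 := by
    refine ⟨i1, fun h => hi1 ?_⟩
    obtain ⟨c, hc⟩ := const_of_der hδ h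
    refine ⟨c, ?_⟩
    rw [← hc, hx', div_eq_mul_inv, mul_comm]
  obtain ⟨l1, hl1⟩ := hl1
  have hxx : x' = (x c0)⁻¹ • x := by rw [hx']; rfl
  have hx00 : x' ≠ 0 := by
    rintro h
    rw [h] at hx1
    exact zero_ne_one hx1
  obtain ⟨P', hP'⟩ : ∃ P' : A → MvPolynomial (Fin (n + 1)) L, P' = fun a =>
    map (algebraMap K L) (P a) := ⟨_, rfl⟩
  obtain ⟨G', hG'⟩ : ∃ G' : A → MvPolynomial (Fin (n + 1)) L, G' = fun a => map (algebraMap K L)
      (map (algebraMap k0 K) (G a)) := ⟨_, rfl⟩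
  rw [← hP', ← hG'] at hxC
  have hPh : ∀ a, (P' a).IsHomogeneous (dg a) := fun a => by
    rw [hP']
    exact (hP a).map _
  have hGh : ∀ a, (G' a).IsHomogeneous (eg a) := fun a => by
    rw [hG']
    exact ((hG a).map _).map _
  have hGc : ∀ a u, (G' a).coeff u = algebraMap k0 L ((G a).coeff u) :=
    fun a u => by
      rw [hG']
      dsimp only
      rw [coeff_map, coeff_map]
      rfl
  have hGe : ∀ a (z : Fin (n + 1) → L), eval z (G' a) =
      aeval z (map (algebraMap k0 K) (G a)) := fun a z => by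
    rw [hG']
    dsimp only
    rw [eval_map]
    rfl
  have hfv : ∀ c, fv s P' G' c x' = (x c0)⁻¹ ^ dd c * fv s P' G' c x := by
    intro c
    unfold fv
    rw [Finset.mul_sum]
    refine Finset.sum_congr rfl fun a _ => ?_
    by_cases h : s a = c
    · simp only [h, if_true]
      rw [hxx, eval_smul_hom (hPh a), eval_smul_hom (hGh a), ← h, ← hdd a, pow_add]
      ring
    · simp only [h, if_false, mul_zero]
  have hVx : ∀ f ∈ V, aeval x' f = 0 := by
    intro f hf
    have h3 : aeval x f = 0 := by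
      have h4 := hxV f hf
      rw [aeval_map_algebraMap] at h4
      exact h4
    obtain ⟨e, he⟩ := hVh f hf
    rw [hxx, Pool.Agent.TH145.MG.aeval_smul he, h3, mul_zero]
  have hrk : Module.finrank L (Full c0 dg D (vert δ) x') ≤ m + 1 := by
    refine le_trans (Submodule.finrank_mono (full_le_tan (k0 := k0) hDk ?_ x'))
      (tan_rank hx1 (hV L x' hx00 hVx))
    intro _ r
    change δ (algebraMap k0 L r) = 0
    rw [IsScalarTower.algebraMap_apply k0 K L]
    exact δ.map_algebraMap _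
  have hw' : ∀ P, Nrm P δ x' (ω P) := by
    intro P lam y hlam hy hyP hy1
    refine hw P (x c0 * lam) y (mul_ne_zero hc0 hlam) ?_ hyP hy1
    rw [mul_smul, ← hy, hxx, smul_smul, mul_inv_cancel₀ hc0, one_smul]
  have key := curve_ineq2 (P := P') (G := G') s dd dl hPh hGh hdd hdl (fun x a b I hI => by
      rw [hP']
      exact hD x a b I (deg_St hI))
    (fun a I b u => by rw [hGc]; exact hDk _ _ _) hDS hδ
    (fun a u => by
      rw [hP']
      dsimp only
      rw [coeff_map]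
      exact δ.map_algebraMap _)
    (fun a u => by
      rw [hGc, IsScalarTower.algebraMap_apply k0 K L]
      exact δ.map_algebraMap _)
    hx1 hl1 hrk (fun c => by rw [hfv, hxC, mul_zero])
    (fun c => by
      obtain ⟨a, ha, hne⟩ := hxn c
      refine ⟨a, ha, ?_⟩
      rw [hxx, eval_smul_hom (hGh a), hGe]
      exact mul_ne_zero (pow_ne_zero _ hcx) hne) hω hw'
  have hp : pht K x' = pht K x := by
    rw [hx']
    exact pht_scale ⟨c0, hc0⟩ hcx
  rw [hp] at key
  exact key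


section gal

variable {k L M : Type} [Field k] [Field L] [Field M] [Algebra k L] [Algebra L M]
  [Algebra k M] [IsScalarTower k L M] [IsAlgClosed k] [CharZero k] [IsFF k L] [IsFF k M]
  [FiniteDimensional L M]

/-- The inequality for a Galois extension. -/
theorem curve_gal2 [IsGalois L M] {k0 : Type} [Field k0] [Algebra k0 k] {n m ν : ℕ} {A C : Type}
    [Fintype A] [Fintype C] {dg eg : A → ℕ}
    (V : Set (MvPolynomial (Fin (n + 1)) k0)) (hVh : ∀ f ∈ V, ∃ e, f.IsHomogeneous e)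
    (hV : DimLE k0 V m) (G : A → MvPolynomial (Fin (n + 1)) k0)
    (hG : ∀ a, (G a).IsHomogeneous (eg a))
    (s : A → C) (dd dl : C → ℕ) (hdd : ∀ a, dg a + eg a = dd (s a)) (hdl : ∀ a, dl (s a) ≤ dg a)
    (F : A → MvPolynomial (Fin (n + 1)) k) (hF : ∀ a, (F a).IsHomogeneous (dg a))
    (hind : AlgebraicIndependent k0 fun p : Cf n dg => (F p.1).coeff p.2.1)
    (U : IntermediateField L M) (hU : Module.finrank L U ≤ ν)
    (x : Fin (n + 1) → M) (l0 : Fin (n + 1)) (hl0 : x l0 = 1) (hxU : ∀ j, x j ∈ U)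
    (hx : ∃ i, x i ∉ Set.range (algebraMap k M))
    (hxV : ∀ f ∈ V, aeval x (map (algebraMap k0 k) f) = 0)
    (hxF : ∀ c, fv s (fun a => map (algebraMap k M) (F a)) (fun a => map (algebraMap k M)
      (map (algebraMap k0 k) (G a))) c x = 0)
    (hxn : ∀ c, ∃ a, s a = c ∧ aeval x (map (algebraMap k0 k) (G a)) ≠ 0) :
    ((∑ c, (dl c + 1) : ℕ) - 2 * m - 2 * ν + 2 : ℤ) * pht k x ≤
      Module.finrank L M * canDeg k L := by
  obtain ⟨δL, hδL⟩ := exists_der (k := k) (K := L)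
  obtain ⟨δ, hδ, hδe⟩ := exists_ext (M := M) δL hδL
  choose sP dP hsd using fun P : Place k M => atp k L M P
  obtain ⟨ρ, hρ0, hρf, hρs, hρ⟩ := gp_all k L M sP dP hsd n ν U hU x l0 hl0 hxU
  choose q r hr hq using fun P : Place k M => res k L M P
  have hfund := fund k L M q r hr hq (fun Q => vo Q δL) (vo_finite hδL)
  obtain ⟨v, hv⟩ : ∃ v : Place k M → ℤ, ∀ P, v P = r P * vo (q P) δL := ⟨_, fun _ => rfl⟩
  have hv' : v = fun P => r P * vo (q P) δL := funext hv
  have hvf : {P | v P ≠ 0}.Finite := by rw [hv']; exact hfund.1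
  have hvs : ∑ᶠ P, v P = - (Module.finrank L M * canDeg k L) := by
    rw [hv', hfund.2, canDeg_eq hδL, mul_neg, neg_neg]
  -- the derivative at a place
  have hδP : ∀ P : Place k M, ∃ h : M, P.ord h = v P ∧ ∀ u, δ u = h * dP P u := by
    intro P
    have hne : dP P ≠ 0 := by
      intro h
      have := (hsd P).der
      rw [h] at this
      simp at this
    obtain ⟨h, hh⟩ := der_smul (k := k) (K := M) (D := dP P) (D' := δ) hne
    have hh' : ∀ u, δ u = h * dP P u := fun u => by rw [hh]; rfl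
    refine ⟨h, ?_, hh'⟩
    have h1 : h = algebraMap L M (δL (sP P)) := by
      rw [← hδe, hh', (hsd P).der, mul_one]
    have h2 : (q P).ord (sP P) = 1 := by
      have h3 := (hsd P).pos
      have h4 := (hsd P).dvd (unif (q P))
      rw [hq, hq, ord_unif, mul_one] at h4
      rw [hq] at h3
      have h5 := hr P
      have h6 : (q P).ord (sP P) ∣ 1 := by
        refine Int.dvd_of_mul_dvd_mul_left (a := r P) (by omega) ?_ 
        rwa [mul_one]
      have h7 : 0 < (q P).ord (sP P) := by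
        by_contra h8
        push Not at h8
        nlinarith
      exact Int.eq_one_of_dvd_one h7.le h6
    have h3 := (ord_der (q P) hδL (f := sP P) (by rw [h2]; exact one_ne_zero)).2
    rw [h1, hq, h3, h2, hv]
    ring
  have hωf : {P : Place k M | ρ P - v P ≠ 0}.Finite := by
    refine (hρf.union hvf).subset fun P hP => ?_
    by_contra hcon
    rw [Set.mem_union, not_or] at hcon
    have h1 : ¬ (ρ P ≠ 0) := hcon.1
    have h2 : ¬ (v P ≠ 0) := hcon.2
    apply hP
    omega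
  have hl : x l0 ≠ 0 := by rw [hl0]; exact one_ne_zero
  have hmain := curv2 V hVh hV G hG s dd dl hdd hdl F hF hind x
    (by
      obtain ⟨i, hi⟩ := hx
      exact ⟨i, l0, hl, by rw [hl0, div_one]; exact hi⟩) hxV hxF hxn δ hδ (fun P => ρ P - v P) hωf
    (fun P lam x' hlam hxx hx' he l => by
      obtain ⟨h, hh, hh'⟩ := hδP P
      have h1 := hρ P lam x' hlam hxx hx' he l
      rw [hh']
      have h2 : Ge P (v P) h := Or.inr hh.ge
      exact (h2.mul h1).mono (by omega))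
  rw [finsum_sub_distrib hρf hvf, hvs] at hmain
  have h1 : ((∑ c, (dl c + 1) : ℕ) - 2 * m - 2 * ν + 2 : ℤ) * pht k x =
      ((∑ c, (dl c + 1) : ℕ) - 2 * m : ℤ) * pht k x - (2 * ν - 2) * pht k x := by ring
  rw [h1]
  linarith

end gal

/-- The degree inequality for families of points of bounded degree over a curve. -/
theorem curve_nu {k0 K L M : Type} [Field k0] [Field K] [Algebra k0 K] [IsAlgClosed K] [CharZero K]
    [Field L] [Algebra K L] [IsFF K L] [Field M] [Algebra L M] [Algebra K M] [IsScalarTower K L M]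
    [FiniteDimensional L M] {n m ν : ℕ} {A C : Type} [Fintype A] [Fintype C] {dg eg : A → ℕ}
    (V : Set (MvPolynomial (Fin (n + 1)) k0)) (hVh : ∀ f ∈ V, ∃ e, f.IsHomogeneous e)
    (hV : DimLE k0 V m) (G : A → MvPolynomial (Fin (n + 1)) k0)
    (hG : ∀ a, (G a).IsHomogeneous (eg a))
    (s : A → C) (dd dl : C → ℕ) (hdd : ∀ a, dg a + eg a = dd (s a)) (hdl : ∀ a, dl (s a) ≤ dg a)
    (F : A → MvPolynomial (Fin (n + 1)) K) (hF : ∀ a, (F a).IsHomogeneous (dg a))
    (hind : AlgebraicIndependent k0 fun p : Cf n dg => (F p.1).coeff p.2.1)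
    (hν : Module.finrank L M ≤ ν) (x : Fin (n + 1) → M)
    (hx : ∃ i j, x j ≠ 0 ∧ x i / x j ∉ Set.range (algebraMap K M))
    (hxV : ∀ f ∈ V, aeval x (map (algebraMap k0 K) f) = 0)
    (hxF : ∀ c, fv s (fun a => map (algebraMap K M) (F a)) (fun a => map (algebraMap K M)
      (map (algebraMap k0 K) (G a))) c x = 0)
    (hxn : ∀ c, ∃ a, s a = c ∧ aeval x (map (algebraMap k0 K) (G a)) ≠ 0) :
    ((∑ c, (dl c + 1) : ℕ) - 2 * m - 2 * ν + 2 : ℤ) * pht K x ≤
      Module.finrank L M * canDeg K L := by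
  have hcL : CharZero L := charZero_of_injective_algebraMap (algebraMap K L).injective
  have hFM : IsFF K M := isFF_of_finite (F := L)
  obtain ⟨N, _, _, _, hst, hfd, hgal⟩ := exists_gal L M
  let _ : Algebra K N := ((algebraMap L N).comp (algebraMap K L)).toAlgebra
  have hst1 : IsScalarTower K L N := IsScalarTower.of_algebraMap_eq fun _ => rfl
  have hst2 : IsScalarTower K M N := IsScalarTower.of_algebraMap_eq fun r => by
    rw [IsScalarTower.algebraMap_apply K L M, ← IsScalarTower.algebraMap_apply L M N]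
    rfl
  have hFN : IsFF K N := isFF_of_finite (F := L)
  have hfd2 : FiniteDimensional M N := FiniteDimensional.right L M N
  obtain ⟨i1, c0, hc0, hi1⟩ := hx
  have hcx : (x c0)⁻¹ ≠ 0 := inv_ne_zero hc0
  obtain ⟨x1, hx1⟩ : ∃ x1 : Fin (n + 1) → M, x1 = fun j => (x c0)⁻¹ * x j := ⟨_, rfl⟩
  have hx1s : x1 = (x c0)⁻¹ • x := by rw [hx1]; rfl
  obtain ⟨x', hx'⟩ : ∃ x' : Fin (n + 1) → N, x' = fun j => algebraMap M N (x1 j) := ⟨_, rfl⟩
  have hev : ∀ (p : MvPolynomial (Fin (n + 1)) K), aeval x' p = algebraMap M N (aeval x1 p) := by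
    intro p
    rw [hx']
    exact aeval_algebraMap_apply N x1 p
  have hevm : ∀ (p : MvPolynomial (Fin (n + 1)) K), eval x' (map (algebraMap K N) p) =
      algebraMap M N (aeval x1 p) := fun p => by
    rw [← hev, eval_map]
    rfl
  have hevm' : ∀ (p : MvPolynomial (Fin (n + 1)) K), eval x (map (algebraMap K M) p) =
      aeval x p := fun p => by
    rw [eval_map]
    rfl
  have hp : pht K x' = Module.finrank M N * pht K x := by
    rw [hx', pht_ext (k := K) (L := M) (M := N) x1 ⟨c0, ?_⟩, hx1, pht_scale ⟨c0, hc0⟩ hcx]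
    rw [hx1]
    exact mul_ne_zero hcx hc0
  have hfr : Module.finrank L N = Module.finrank L M * Module.finrank M N :=
    (Module.finrank_mul_finrank L M N).symm
  have hmain := curve_gal2 (k := K) (L := L) (M := N) (ν := ν) V hVh hV G hG s dd dl hdd hdl F hF hind
    (IsScalarTower.toAlgHom L M N).fieldRange
    (by
      have h1 := LinearEquiv.finrank_eq (AlgEquiv.ofInjectiveField
        (IsScalarTower.toAlgHom L M N)).toLinearEquiv
      rw [h1] at hν
      exact hν) x' c0 (by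
      rw [hx', hx1]
      dsimp only
      rw [inv_mul_cancel₀ hc0, map_one]) (fun j => by
      rw [hx']
      exact ⟨x1 j, rfl⟩)
    ⟨i1, by
      rintro ⟨r, hr⟩
      apply hi1
      refine ⟨r, (algebraMap M N).injective ?_⟩
      rw [← IsScalarTower.algebraMap_apply K M N, hr, hx', hx1, div_eq_mul_inv, mul_comm]⟩
    (fun f hf => by
      rw [hev]
      obtain ⟨e, he⟩ := hVh f hf
      have h3 : aeval x1 (map (algebraMap k0 K) f) = 0 := by
        rw [hx1s, Pool.Agent.TH145.MG.aeval_smul (he.map _), hxV f hf, mul_zero]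
      rw [h3, map_zero])
    (fun c => by
      classical
      have h4 : ∀ a, (if s a = c then eval x' (map (algebraMap K N) (F a)) *
          eval x' (map (algebraMap K N) (map (algebraMap k0 K) (G a))) else 0) =
          algebraMap M N ((x c0)⁻¹ ^ dd c * (if s a = c then eval x (map (algebraMap K M) (F a)) *
          eval x (map (algebraMap K M) (map (algebraMap k0 K) (G a))) else 0)) := by
        intro a
        by_cases h : s a = c
        · simp only [h, if_true]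
          rw [hevm, hevm, hevm', hevm', hx1s, Pool.Agent.TH145.MG.aeval_smul (hF a),
            Pool.Agent.TH145.MG.aeval_smul ((hG a).map _), ← h, ← hdd a, pow_add, ← map_mul]
          congr 1
          ring
        · simp only [h, if_false, mul_zero, map_zero]
      unfold fv
      rw [Finset.sum_congr rfl fun a _ => h4 a, ← map_sum, ← Finset.mul_sum]
      have h5 := hxF c
      unfold fv at h5
      rw [h5, mul_zero, map_zero])
    (fun c => by
      obtain ⟨a, ha, hne⟩ := hxn c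
      refine ⟨a, ha, ?_⟩
      rw [hev, hx1s, Pool.Agent.TH145.MG.aeval_smul ((hG a).map _)]
      exact (_root_.map_ne_zero _).2 (mul_ne_zero (pow_ne_zero _ hcx) hne))
  rw [hp, hfr] at hmain
  have hpos : (0 : ℤ) < Module.finrank M N := by exact_mod_cast Module.finrank_pos
  push_cast at hmain ⊢
  refine le_of_mul_le_mul_left ?_ hpos
  linarith

end Pool.Agent.Helper53K9.UV
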