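import Pool.Agent.Helper53K9.UV.Ineq

/-!
# The height inequality in the splitting field of a polynomial
-/

set_option autoImplicit false

open MvPolynomial FF Pool.Agent.W603.LV Pool.Agent.W603.PV Pool.Agent.W602.RG Pool.Agent.TH145.GH
open Pool.Agent.TH145.GC (Data Gen Full Cf Ev dF_self dF_Ev)
open Pool.Agent.Helper53K9.BD

namespace Pool.Agent.Helper53K9.UV

theorem gal_ht2 {k0 k L Ω : Type} [Field k0] [Field k] [Field L] [Field Ω]
    [Algebra k L] [Algebra L Ω] [Algebra k Ω] [IsScalarTower k L Ω] [IsAlgClosed k] [CharZero k]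
    [CharZero Ω] [IsFF k L]
    {n m ν : ℕ} {A : Type} [Fintype A] {dg : A → ℕ} {F : A → MvPolynomial (Fin (n + 1)) L}
    {D : A → (Fin (n + 1) →₀ ℕ) → Derivation ℤ L L} {e : Place k L → ℤ} (hdat : Data k F dg D e)
    (Dh : A → (Fin (n + 1) →₀ ℕ) → Derivation ℤ Ω Ω)
    (hDh : ∀ a I f, Dh a I (algebraMap L Ω f) = algebraMap L Ω (D a I f))
    (hS : ∀ a I, Sem k (D a I)) (ψ : k0 →+* L) (hDk : ∀ a I r, D a I (ψ r) = 0)
    (hd : 2 * m + 2 * ν ≤ ∑ a, (dg a + 1)) {V : Set (MvPolynomial (Fin (n + 1)) k0)}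
    (hV : Pool.Agent.TH145.MG.DimLE k0 V m)
    {eg : A → ℕ} {Gf Rf : A → MvPolynomial (Fin (n + 1)) L} (hGf : ∀ a, (Gf a).IsHomogeneous (eg a))
    (hRf : ∀ a, (Rf a).IsHomogeneous (dg a + eg a))
    (hGD : ∀ a I b u, I.degree = dg a → D a I ((Gf b).coeff u) = 0)
    (hRD : ∀ a I b u, I.degree = dg a → D a I ((Rf b).coeff u) = 0)
    (G : Polynomial L) (hG : G.Monic)
    (hGν : G.natDegree ≤ ν) (M : IntermediateField L Ω) [FiniteDimensional L M] [IsGalois L M]
    (t : M) (ht : Polynomial.aeval t G = 0) (x : Fin (n + 1) → M)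
    (hx : ∀ j, x j ∈ IntermediateField.adjoin L {t})
    (l0 : Fin (n + 1)) (hl0 : x l0 = 1)
    (hxV : ∀ f ∈ V, eval₂ ((algebraMap L M).comp ψ) x f = 0)
    (hxF : ∀ a, eval x (map (algebraMap L M) (F a)) * eval x (map (algebraMap L M) (Gf a)) +
      eval x (map (algebraMap L M) (Rf a)) = 0)
    (hxG : ∀ a, eval x (map (algebraMap L M) (Gf a)) ≠ 0) :
    pht k x ≤ Module.finrank L M * ∑ᶠ Q, e Q * hgt k (unif Q) := by
  have hM : ∀ a I, ∀ x ∈ M, Dh a I x ∈ M := fun a I x hx =>
    der_mem M (Dh a I) (fun f => ⟨D a I f, hDh a I f⟩) hx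
  have hFF : IsFF k M := Pool.Agent.W603.PV.isFF_of_finite (F := L)
  have hczM : CharZero M := charZero_of_injective_algebraMap (algebraMap k M).injective
  have hDD : ∀ a I f, resD M (Dh a I) (hM a I) (algebraMap L M f) = algebraMap L M (D a I f) := by
    intro a I f
    apply Subtype.ext
    exact hDh a I f
  have hx0 : x ≠ 0 := by
    intro h0
    rw [h0] at hl0
    exact zero_ne_one hl0
  classical
  -- the functionals
  obtain ⟨FM, hFM⟩ : ∃ FM : A → MvPolynomial (Fin (n + 1)) M, FM = fun a =>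
    map (algebraMap L M) (F a) := ⟨_, rfl⟩
  obtain ⟨GM, hGM⟩ : ∃ GM : A → MvPolynomial (Fin (n + 1)) M, GM = fun a =>
    map (algebraMap L M) (Gf a) := ⟨_, rfl⟩
  obtain ⟨RM, hRM⟩ : ∃ RM : A → MvPolynomial (Fin (n + 1)) M, RM = fun a =>
    map (algebraMap L M) (Rf a) := ⟨_, rfl⟩
  obtain ⟨D', hDd⟩ : ∃ D' : A → (Fin (n + 1) →₀ ℕ) → Derivation ℤ M M, ∀ a I, D' a I =
    resD M (Dh a I) (hM a I) := ⟨_, fun _ _ => rfl⟩
  have hD' : ∀ a I f, D' a I (algebraMap L M f) = algebraMap L M (D a I f) := fun a I f => by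
    rw [hDd]
    exact hDD a I f
  have hkill : ∀ (f : MvPolynomial (Fin (n + 1)) L) a I, (∀ u, D a I (f.coeff u) = 0) →
      dF (map (algebraMap L M) f) x (Ev D' x a I) =
        D' a I (eval x (map (algebraMap L M) f)) := by
    intro f a I hf
    rw [chainM (D' a I) x (map (algebraMap L M) f)]
    have h1 : ∑ u ∈ (map (algebraMap L M) f).support,
        D' a I ((map (algebraMap L M) f).coeff u) * mon x u = 0 :=
      Finset.sum_eq_zero fun u _ => by
        rw [coeff_map, hD', hf, map_zero, zero_mul]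
    rw [h1, zero_add]
    rfl
  obtain ⟨Φ, hΦ⟩ : ∃ Φ : (Fin (n + 1) → M) →ₗ[M] (A → M), ∀ z b, Φ z b =
      dF (FM b) x z * eval x (GM b) + eval x (FM b) * dF (GM b) x z + dF (RM b) x z :=
    ⟨{ toFun := fun z b => dF (FM b) x z * eval x (GM b) + eval x (FM b) * dF (GM b) x z +
        dF (RM b) x z
       map_add' := fun y z => by
        funext b
        simp only [Pi.add_apply, dF_add]
        ring
       map_smul' := fun r z => by
        funext b
        simp only [Pi.smul_apply, smul_eq_mul, dF_smul, RingHom.id_apply]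
        ring }, fun _ _ => rfl⟩
  have heq : ∀ b, eval x (FM b) * eval x (GM b) + eval x (RM b) = 0 := fun b => by
    rw [hGM, hRM, hFM]
    exact hxF b
  have hhomF : ∀ b, (FM b).IsHomogeneous (dg b) := fun b => by rw [hFM]; exact (hdat.hom b).map _
  have hhomG : ∀ b, (GM b).IsHomogeneous (eg b) := fun b => by rw [hGM]; exact (hGf b).map _
  have hhomR : ∀ b, (RM b).IsHomogeneous (dg b + eg b) := fun b => by rw [hRM]; exact (hRf b).map _
  have hdual : ∀ a b I J, I.degree = dg a → J.degree = dg b →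
      (a = b → I = J → D' a I ((FM b).coeff J) = 1) ∧
      (a ≠ b ∨ I ≠ J → D' a I ((FM b).coeff J) = 0) := fun a b I J hI hJ => by
    rw [hFM]
    dsimp only
    rw [coeff_map, hD']
    exact ⟨fun hab hIJ => by rw [(hdat.dual a b I J hI hJ).1 hab hIJ, map_one],
      fun hIJ => by rw [(hdat.dual a b I J hI hJ).2 hIJ, map_zero]⟩
  refine ineq2 (m := m) (ν := ν) hdat D' (fun a I c => ?_)
    hD' hd (IntermediateField.adjoin L {t}) ?_ x l0 hl0 hx Φ (fun a => eval x (GM a))
    (fun a => by rw [hGM]; exact hxG a) ?_ ?_ ?_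
  · obtain ⟨c', hc'⟩ := hS a I c
    refine ⟨c', ?_⟩
    have h1 := hD' a I (algebraMap k L c)
    rw [hc'] at h1
    rw [IsScalarTower.algebraMap_apply k L M, IsScalarTower.algebraMap_apply k L M]
    exact h1
  · have hint : IsIntegral L t := ⟨G, hG, ht⟩
    rw [IntermediateField.adjoin.finrank hint]
    refine (Polynomial.natDegree_le_of_dvd (minpoly.dvd L t ht) hG.ne_zero).trans hGν
  · funext b
    rw [hΦ, dF_self (hhomF b), dF_self (hhomG b), dF_self (hhomR b), Pi.zero_apply]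
    have h1 := heq b
    push_cast
    linear_combination ((dg b : M) + eg b) * h1
  · intro a I hI b
    rw [hΦ, dF_Ev hhomF hdual x hI]
    have h1 : dF (GM b) x (Ev D' x a I) = D' a I (eval x (GM b)) := by
      rw [hGM]; exact hkill _ _ _ fun u => hGD a I b u hI
    have h2 : dF (RM b) x (Ev D' x a I) = D' a I (eval x (RM b)) := by
      rw [hRM]; exact hkill _ _ _ fun u => hRD a I b u hI
    have h3 : D' a I (eval x (FM b) * eval x (GM b) + eval x (RM b)) = 0 := by
      rw [heq, map_zero]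
    rw [map_add, (D' a I).leibniz, smul_eq_mul, smul_eq_mul] at h3
    rw [h1, h2]
    split_ifs
    · linear_combination h3
    · linear_combination h3
  · let _ : Algebra k0 M := ((algebraMap L M).comp ψ).toAlgebra
    refine Pool.Agent.TH145.GC.rank_le (k0 := k0) (fun a I r => ?_) hl0 ?_
    · change D' a I (algebraMap L M (ψ r)) = 0
      rw [hD', hDk, map_zero]
    · exact hV M x hx0 fun f hf => hxV f hf

end Pool.Agent.Helper53K9.UV
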