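import Pool.Agent.Helper53K9.BD.All

/-!
# The height inequality on hypersurfaces that contain a given variety
-/

set_option autoImplicit false

open MvPolynomial FF Pool.Agent.W603.LV Pool.Agent.W603.PV Pool.Agent.W602.RG Pool.Agent.TH145.GH
open Pool.Agent.TH145.GC (Data Gen Full Cf finite_cf exists_minor mx vv wv tv Ev rd Ti Ev_mod
  vv_mem_full)
open Pool.Agent.Helper53K9.BD

namespace Pool.Agent.Helper53K9.UV

section rows

variable {K : Type} [Field K] {n : ℕ} {A : Type} {dg : A → ℕ}
  {D : A → (Fin (n + 1) →₀ ℕ) → Derivation ℤ K K}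

/-- The choice of the rows. -/
theorem exists_rows2 [DecidableEq A] [Fintype A] {x : Fin (n + 1) → K}
    {e : Fin (n + 1)} (he : x e ≠ 0) (Φ : (Fin (n + 1) → K) →ₗ[K] (A → K)) (u : A → K)
    (hu : ∀ a, u a ≠ 0) (hx : Φ x = 0)
    (hE : ∀ a I, I.degree = dg a → ∀ c, Φ (Ev D x a I) c = if a = c then -(mon x I * u c) else 0) :
    ∃ b : Finset (Option (Ti n A) ⊕ A), Sum.inl none ∈ b ∧ (∀ a, Sum.inr a ∈ b) ∧
      LinearIndependent K (fun i : b => vv dg D x (fun a => Finsupp.single e (dg a)) i) ∧
      (Submodule.span K (Set.range (wv dg D x)) ≤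
        Submodule.span K (wv dg D x '' {o | Sum.inl o ∈ b})) ∧
      Module.finrank K (Full dg D x) = b.card := by
  classical
  obtain ⟨v, hv⟩ : ∃ v, v = vv dg D x (fun a => Finsupp.single e (dg a)) := ⟨_, rfl⟩
  have hdeg : ∀ a, (Finsupp.single e (dg a)).degree = dg a := fun a => Finsupp.degree_single _ _
  have hx0 : x ≠ 0 := by
    rintro rfl
    exact he rfl
  have hs0 : LinearIndepOn K v {Sum.inl none} := by
    rw [linearIndepOn_singleton_iff, hv]
    exact hx0
  obtain ⟨b0, hb0, hs0b, hspan0, hb0i⟩ := exists_linearIndepOn_extension hs0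
    (t := Set.range Sum.inl) (by rintro _ rfl; exact ⟨none, rfl⟩)
  have hΦw : ∀ z ∈ Submodule.span K (Set.range (wv dg D x)), Φ z = 0 := by
    intro z hz
    have h1 : Submodule.span K (Set.range (wv dg D x)) ≤ LinearMap.ker Φ := by
      rw [Submodule.span_le]
      rintro _ ⟨o, rfl⟩
      rw [SetLike.mem_coe, LinearMap.mem_ker]
      rcases o with _ | t
      · simp only [wv]
        exact hx
      · simp only [wv]
        by_cases ht : t.2.1.degree + 1 = dg t.1
        · funext c
          rw [tv, if_pos ht, map_sub, map_smul, map_smul, Pi.sub_apply, Pi.smul_apply,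
            Pi.smul_apply, hE _ _ (by rw [map_add, Finsupp.degree_single, ht]),
            hE _ _ (by rw [map_add, Finsupp.degree_single, ht]), mon_add, mon_add, mon_single,
            mon_single, smul_eq_mul, smul_eq_mul, Pi.zero_apply]
          split_ifs
          · ring
          · ring
        · rw [tv, if_neg ht]
          exact map_zero Φ
    exact h1 hz
  have hΦE : ∀ a c : A, Φ (v (Sum.inr a)) c = if a = c then -(x e ^ dg a * u c) else 0 := by
    intro a c
    rw [hv]
    simp only [vv]
    rw [hE a _ (hdeg a), mon_single]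
  have hΦsum : ∀ r : A → K, Φ (∑ a : A, r a • v (Sum.inr a)) =
      fun c => -(r c * (x e ^ dg c * u c)) := by
    intro r
    rw [map_sum]
    funext c
    rw [Finset.sum_apply, Finset.sum_eq_single c]
    · rw [map_smul, Pi.smul_apply, hΦE c c, if_pos rfl, smul_eq_mul]
      ring
    · intro a _ hac
      rw [map_smul, Pi.smul_apply, hΦE a c, if_neg hac, smul_zero]
    · intro h; exact absurd (Finset.mem_univ c) h
  have hne : ∀ c, x e ^ dg c * u c ≠ 0 := fun c => mul_ne_zero (pow_ne_zero _ he) (hu c)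
  have hCind : LinearIndepOn K v (Set.range (Sum.inr : A → Option (Ti n A) ⊕ A)) := by
    have h1 : LinearIndependent K (fun a : A => v (Sum.inr a)) := by
      rw [Fintype.linearIndependent_iff]
      intro r hr a
      have h2 := hΦsum r
      rw [hr, map_zero] at h2
      have h3 := congrFun h2 a
      have h4 : r a * (x e ^ dg a * u a) = 0 := by
        have h5 : (0 : K) = -(r a * (x e ^ dg a * u a)) := h3
        rw [← neg_eq_zero]; exact h5.symm
      exact (mul_eq_zero.1 h4).resolve_right (hne a)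
    have h2 : LinearIndepOn K (v ∘ Sum.inr) (Set.univ : Set A) := linearIndepOn_univ_iff.2 h1
    rw [← Set.image_univ]
    exact (LinearIndepOn.image_of_comp _ _ h2)
  have hdisj : Disjoint (Submodule.span K (v '' b0))
      (Submodule.span K (v '' (Set.range (Sum.inr : A → Option (Ti n A) ⊕ A)))) := by
    rw [Submodule.disjoint_def]
    intro z hz1 hz2
    have h1 : Φ z = 0 := by
      apply hΦw
      refine (Submodule.span_le.2 ?_) hz1
      rintro _ ⟨i, hi, rfl⟩
      obtain ⟨o, rfl⟩ := hb0 hi
      rw [hv]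
      exact Submodule.subset_span ⟨o, rfl⟩
    have h2 : v '' (Set.range (Sum.inr : A → Option (Ti n A) ⊕ A)) =
        Set.range fun a : A => v (Sum.inr a) := by
      rw [← Set.range_comp]
      rfl
    rw [h2, Submodule.mem_span_range_iff_exists_fun] at hz2
    obtain ⟨r, rfl⟩ := hz2
    rw [hΦsum] at h1
    refine Finset.sum_eq_zero fun a _ => ?_
    have h3 := congrFun h1 a
    have h4 : r a * (x e ^ dg a * u a) = 0 := by
      have h5 : -(r a * (x e ^ dg a * u a)) = 0 := h3
      rwa [neg_eq_zero] at h5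
    rw [(mul_eq_zero.1 h4).resolve_right (hne a), zero_smul]
  obtain ⟨b1, -, hb1, hspan1, hb1i⟩ := exists_linearIndepOn_extension (hb0i.union hCind hdisj)
    (Set.subset_univ _)
  have hb1i' : LinearIndependent K (fun i : b1 => v i) := hb1i
  have hfin : b1.Finite := by
    have := hb1i'.finite
    exact Set.toFinite b1
  obtain ⟨b, hb⟩ : ∃ b : Finset (Option (Ti n A) ⊕ A), (b : Set _) = b1 :=
    ⟨hfin.toFinset, hfin.coe_toFinset⟩
  have hbm : ∀ i, i ∈ b ↔ i ∈ b1 := fun i => by rw [← hb, Finset.mem_coe]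
  have hbi : LinearIndependent K (fun i : b => v i) := by
    have h1 : LinearIndepOn K v (b : Set _) := by rw [hb]; exact hb1i
    exact h1
  refine ⟨b, ?_, fun a => ?_, ?_, ?_, ?_⟩
  · rw [hbm]; exact hb1 (Or.inl (hs0b rfl))
  · rw [hbm]; exact hb1 (Or.inr ⟨a, rfl⟩)
  · rw [← hv]; exact hbi
  · rw [Submodule.span_le]
    rintro _ ⟨o, rfl⟩
    have h1 := hspan0 ⟨Sum.inl o, ⟨o, rfl⟩, rfl⟩
    have h2 : v (Sum.inl o) = wv dg D x o := by rw [hv]; rfl
    rw [h2] at h1
    refine Submodule.span_mono ?_ h1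
    rintro _ ⟨i, hi, rfl⟩
    obtain ⟨o', rfl⟩ := hb0 hi
    refine ⟨o', ?_, by rw [hv]; rfl⟩
    rw [Set.mem_ofPred_eq, hbm]
    exact hb1 (Or.inl hi)
  · have h1 : Full dg D x = Submodule.span K (Set.range fun i : b => v i) := by
      apply le_antisymm
      · have h2 : ∀ i, v i ∈ Submodule.span K (Set.range fun i : b => v i) := by
          intro i
          have h3 := hspan1 ⟨i, Set.mem_univ _, rfl⟩
          rw [← hb, Set.image_eq_range] at h3
          exact h3
        have h3 : ∀ o, wv dg D x o ∈ Submodule.span K (Set.range fun i : b => v i) := by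
          intro o
          have := h2 (Sum.inl o)
          rwa [hv] at this ⊢
        rw [Full, Submodule.span_le]
        rintro _ (⟨o, rfl⟩ | ⟨a, I, hI, rfl⟩)
        · exact h3 o
        · have h4 := Ev_mod dg D x e he a _ I hI rfl
          have h5 : Submodule.span K (Set.range (wv dg D x)) ≤
              Submodule.span K (Set.range fun i : b => v i) := by
            rw [Submodule.span_le]
            rintro _ ⟨o, rfl⟩
            exact h3 o
          have h6 : Ev D x a (Finsupp.single e (dg a)) ∈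
              Submodule.span K (Set.range fun i : b => v i) := by
            have := h2 (Sum.inr a)
            rwa [hv] at this ⊢
          have h7 := add_mem (h5 h4) (Submodule.smul_mem _ (mon x I / x e ^ dg a) h6)
          rwa [sub_add_cancel] at h7
      · rw [Submodule.span_le]
        rintro _ ⟨i, rfl⟩
        rw [hv]
        exact vv_mem_full x hdeg i
    rw [h1, finrank_span_eq_card hbi, Fintype.card_coe]

end rows

open scoped Classical in
/-- The height inequality for points of degree at most `ν`, with functionals in place of the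
differentials of the equations. -/
theorem ineq2 {k L M : Type} [Field k] [Field L] [Field M] [Algebra k L] [Algebra L M]
    [Algebra k M] [IsScalarTower k L M] [IsAlgClosed k] [CharZero k] [IsFF k L] [IsFF k M]
    [FiniteDimensional L M] [IsGalois L M] {n m ν : ℕ} {A : Type} [Fintype A] {dg : A → ℕ}
    {F : A → MvPolynomial (Fin (n + 1)) L} {D : A → (Fin (n + 1) →₀ ℕ) → Derivation ℤ L L}
    {e : Place k L → ℤ} (hdat : Data k F dg D e)
    (D' : A → (Fin (n + 1) →₀ ℕ) → Derivation ℤ M M) (hS : ∀ a I, Sem k (D' a I))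
    (hD' : ∀ a I f, D' a I (algebraMap L M f) = algebraMap L M (D a I f))
    (hd : 2 * m + 2 * ν ≤ ∑ a, (dg a + 1))
    (U : IntermediateField L M) (hU : Module.finrank L U ≤ ν)
    (x : Fin (n + 1) → M) (l0 : Fin (n + 1)) (hl0 : x l0 = 1) (hxU : ∀ j, x j ∈ U)
    (Φ : (Fin (n + 1) → M) →ₗ[M] (A → M)) (w : A → M) (hw : ∀ a, w a ≠ 0) (hxF : Φ x = 0)
    (hE : ∀ a I, I.degree = dg a → ∀ c,
      Φ (Ev D' x a I) c = if a = c then -(mon x I * w c) else 0)
    (hrk : Module.finrank M (Full dg D' x) ≤ m + 1) :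
    pht k x ≤ Module.finrank L M * ∑ᶠ Q, e Q * hgt k (unif Q) := by
  choose s δ hsδ using fun P : Place k M => atp k L M P
  obtain ⟨ρ, hρ0, hρf, hρs, hρ⟩ := gp_all k L M s δ hsδ n ν U hU x l0 hl0 hxU
  obtain ⟨e', he0, hef, hel, hes⟩ := sumq k L M e hdat.e_nonneg hdat.fin
  have hx0 : x ≠ 0 := by
    rintro rfl
    exact zero_ne_one hl0
  have hxl0 : x l0 ≠ 0 := by rw [hl0]; exact one_ne_zero
  -- some data on `M`
  have hfcf := finite_cf n dg
  obtain ⟨eM, heM0, heMf, heM⟩ := exists_loss_fin (k := k) (K := M)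
    (ι := Cf n dg) (D := fun p => D' p.1 p.2.1) (fun p => hS p.1 p.2.1)
  have hdatM : Data k (fun a => map (algebraMap L M) (F a)) dg D' eM := by
    refine ⟨fun a => (hdat.hom a).map _, fun a b I J hI hJ => ?_, heM0,
      fun P f hf a I hI => heM P f hf ⟨a, I, hI⟩, heMf⟩
    rw [coeff_map, hD']
    exact ⟨fun hab hIJ => by rw [(hdat.dual a b I J hI hJ).1 hab hIJ, map_one],
      fun hIJ => by rw [(hdat.dual a b I J hI hJ).2 hIJ, map_zero]⟩
  obtain ⟨b, hb0, hbC', hbi, hspan, hcard⟩ := exists_rows2 hxl0 Φ w hw hxF hE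
  obtain ⟨σ, hσ⟩ := exists_minor _ hbi
  have hdet : (mx dg D' x (fun a => Finsupp.single l0 (dg a)) b σ).det ≠ 0 := by
    unfold mx
    convert hσ
  have hrd : ∑ i ∈ b, rd i + Fintype.card A + 1 ≤ 2 * b.card := by
    obtain ⟨b', hb'⟩ : ∃ b' : Finset (Option (Ti n A) ⊕ A), b' = insert (Sum.inl none)
      (Finset.univ.image Sum.inr) := ⟨_, rfl⟩
    have h1 : b' ⊆ b := by
      rw [hb']
      intro i hi
      rcases Finset.mem_insert.1 hi with rfl | hi
      · exact hb0
      · obtain ⟨a, ha, rfl⟩ := Finset.mem_image.1 hi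
        exact hbC' a
    have h2 : b'.card = Fintype.card A + 1 := by
      rw [hb', Finset.card_insert_of_notMem (by simp), Finset.card_image_of_injective _
        Sum.inr_injective, Finset.card_univ]
    have h3 : ∑ i ∈ b', rd i = b'.card := by
      rw [Finset.card_eq_sum_ones]
      refine Finset.sum_congr rfl fun i hi => ?_
      rw [hb'] at hi
      rcases Finset.mem_insert.1 hi with rfl | hi
      · rfl
      · obtain ⟨a, ha, rfl⟩ := Finset.mem_image.1 hi
        rfl
    have h4 : ∑ i ∈ b \ b', rd i ≤ 2 * (b \ b').card := by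
      rw [mul_comm, ← smul_eq_mul, ← Finset.sum_const]
      refine Finset.sum_le_sum fun i _ => ?_
      rcases i with (_ | _) | _
      · exact one_le_two
      · exact le_rfl
      · exact one_le_two
    have h5 := Finset.sum_sdiff (f := fun i => rd i) h1
    have h6 := Finset.card_sdiff_add_card_eq_card h1
    omega
  have hpht : 0 ≤ pht k x :=
    (hgt_nonneg _).trans (Pool.Agent.W603.CX.hgt_le_pht (k := k) x hxl0 hxl0)
  obtain ⟨Θ, hΘ⟩ : ∃ Θ, Θ = (mx dg D' x (fun a => Finsupp.single l0 (dg a)) b σ).det /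
        (∏ a, if Sum.inr a ∈ b then x l0 ^ dg a else
          eval x (map (algebraMap L M) (F a))) := ⟨_, rfl⟩
  obtain ⟨a0, ha0⟩ : ∃ a0 : ℤ, a0 = (∑ a, dg a : ℕ) - (∑ i ∈ b, rd i : ℕ) := ⟨_, rfl⟩
  have hfin : {P : Place k M | e' P + ρ P ≠ 0}.Finite := by
    refine (hef.union hρf).subset fun P hP => ?_
    by_contra hcon
    rw [Set.mem_union, not_or] at hcon
    have h1 : ¬ (e' P ≠ 0) := hcon.1
    have h2 : ¬ (ρ P ≠ 0) := hcon.2
    apply hP
    omega
  have hmain : a0 * pht k x ≤ ∑ᶠ P, (e' P + ρ P) := by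
    refine wsum k M n x hx0 Θ a0 (fun P => e' P + ρ P) hfin fun P => ?_
    obtain ⟨lam, x', e1, hlam, hlamP, hxx, hx', he1, -, hdet', hq0, hord⟩ :=
      Pool.Agent.Helper53K9.AB.ord_scaled hdatM P hxl0 hb0 σ hspan hdet
        (fun a ha => absurd (hbC' a) ha)
    have hdeg : ∀ a, (Finsupp.single e1 (dg a)).degree = dg a := fun a =>
      Finsupp.degree_single _ _
    -- the derivatives of `s`
    have hs0 : Ge P 0 (algebraMap L M (s P)) := Or.inr (hsδ P).pos.le
    have hDs : ∀ a, ∀ I : Fin (n + 1) →₀ ℕ, I.degree = dg a →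
        Ge P (-e' P) (D' a I (algebraMap L M (s P))) := fun a I hI => by
      rw [hD']
      exact hel P _ _ hs0 fun Q hQ => hdat.loss Q _ hQ a I hI
    have hDu : ∀ a, ∀ I : Fin (n + 1) →₀ ℕ, ∀ l,
        Ge P 0 (D' a I (x' l) - D' a I (algebraMap L M (s P)) * δ P (x' l)) := fun a I l =>
      loc k L M P (s P) (δ P) (hsδ P) (D' a I) (hS a I) (x' l) (hx' l)
    obtain ⟨α, hα⟩ : ∃ α : Option (Ti n A) ⊕ A → M, ∀ i, α i = match i with
      | Sum.inl none => 0
      | Sum.inl (some t) => if t.2.1.degree + 1 = dg t.1 then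
          x' t.2.2.2 * D' t.1 (t.2.1 + Finsupp.single t.2.2.1 1) (algebraMap L M (s P)) -
          x' t.2.2.1 * D' t.1 (t.2.1 + Finsupp.single t.2.2.2 1) (algebraMap L M (s P)) else 0
      | Sum.inr a => D' a (Finsupp.single e1 (dg a)) (algebraMap L M (s P)) := ⟨_, fun _ => rfl⟩
    have hge : Ge P (-(e' P + ρ P))
        (mx dg D' x' (fun a => Finsupp.single e1 (dg a)) b σ).det := by
      have h1 := detl k M P b (fun i => α i) (fun j => δ P (x' (σ j)))
        (fun i j => vv dg D' x' (fun a => Finsupp.single e1 (dg a)) i (σ j) -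
          α i * δ P (x' (σ j))) (e' P) (ρ P) (he0 P) (hρ0 P) ?_ ?_ ?_
      · have h2 : (Matrix.of fun (i j : b) => α i * δ P (x' (σ j)) +
            (vv dg D' x' (fun a => Finsupp.single e1 (dg a)) i (σ j) -
              α i * δ P (x' (σ j)))) = mx dg D' x' (fun a => Finsupp.single e1 (dg a)) b σ := by
          ext i j
          rw [Matrix.of_apply, add_sub_cancel]
          rfl
        rw [h2] at h1
        convert h1
      · rintro ⟨i, -⟩
        rw [hα]
        have he0P := he0 P
        rcases i with (_ | t) | a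
        · exact Ge.zero
        · dsimp only
          split_ifs with ht
          · refine Ge.mono (by omega : -e' P ≤ 0 + -e' P) (Ge.sub ?_ ?_)
            · exact (hx' _).mul (hDs _ _ (by rw [map_add, Finsupp.degree_single, ht]))
            · exact (hx' _).mul (hDs _ _ (by rw [map_add, Finsupp.degree_single, ht]))
          · exact Ge.zero
        · exact hDs a _ (hdeg a)
      · intro j
        exact hρ P lam x' hlam hxx hx' ⟨e1, he1⟩ (σ j)
      · rintro ⟨i, -⟩ j
        dsimp only
        rw [hα]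
        rcases i with (_ | t) | a
        · simp only [vv, wv]
          rw [zero_mul, sub_zero]
          exact hx' _
        · simp only [vv, wv, tv]
          split_ifs with ht
          · have h3 : (x' t.2.2.2 • Ev D' x' t.1 (t.2.1 + Finsupp.single t.2.2.1 1) -
                x' t.2.2.1 • Ev D' x' t.1 (t.2.1 + Finsupp.single t.2.2.2 1)) (σ j) -
                (x' t.2.2.2 * D' t.1 (t.2.1 + Finsupp.single t.2.2.1 1) (algebraMap L M (s P)) -
                x' t.2.2.1 * D' t.1 (t.2.1 + Finsupp.single t.2.2.2 1)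
                  (algebraMap L M (s P))) * δ P (x' (σ j)) =
                x' t.2.2.2 * (D' t.1 (t.2.1 + Finsupp.single t.2.2.1 1) (x' (σ j)) -
                  D' t.1 (t.2.1 + Finsupp.single t.2.2.1 1) (algebraMap L M (s P)) *
                    δ P (x' (σ j))) -
                x' t.2.2.1 * (D' t.1 (t.2.1 + Finsupp.single t.2.2.2 1) (x' (σ j)) -
                  D' t.1 (t.2.1 + Finsupp.single t.2.2.2 1) (algebraMap L M (s P)) *
                    δ P (x' (σ j))) := by
              simp only [Pi.sub_apply, Pi.smul_apply, smul_eq_mul, Ev]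
              ring
            rw [h3]
            refine Ge.mono (by omega : (0 : ℤ) ≤ 0 + 0) (Ge.sub ?_ ?_)
            · exact (hx' _).mul (hDu _ _ _)
            · exact (hx' _).mul (hDu _ _ _)
          · rw [zero_mul, sub_zero]
            exact Ge.zero
        · simp only [vv, Ev]
          exact hDu a _ _
    have h1 := hge.resolve_left hdet'
    have h2 : ∑ a ∈ Finset.univ.filter (fun a => Sum.inr a ∉ b),
        P.ord (eval x' (map (algebraMap L M) (F a))) = 0 := by
      refine Finset.sum_eq_zero fun a ha => ?_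
      exact absurd (hbC' a) (Finset.mem_filter.1 ha).2
    rw [h2, sub_zero, ← hΘ] at hord
    rw [hord, ha0]
    linarith
  rw [finsum_add_distrib hef hρf] at hmain
  have hb : b.card ≤ m + 1 := by
    rw [← hcard]
    exact hrk
  have ha1 : (2 * ν - 1 : ℤ) ≤ a0 := by
    rw [Finset.sum_add_distrib, Finset.sum_const, smul_eq_mul, mul_one, Finset.card_univ] at hd
    rw [ha0]
    have h1 : 2 * m + 2 * ν ≤ ∑ a, dg a + Fintype.card A := hd
    omega
  have h1 : (2 * ν - 1 : ℤ) * pht k x ≤ a0 * pht k x := mul_le_mul_of_nonneg_right ha1 hpht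
  have h2 : (2 * ν - 1 : ℤ) * pht k x = (2 * ν - 2) * pht k x + pht k x := by ring
  linarith

end Pool.Agent.Helper53K9.UV
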